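import Pool.Agent.Lib_MP_fbc045_an.Extension

/-!
# The Beurling–Ahlfors extension: derivative and distortion
-/

set_option autoImplicit false

open Filter Topology MeasureTheory

namespace Pool.Agent.MPfbc045

variable {g : ℝ → ℝ}

lemma V_eq_div (hc : Continuous g) (x : ℝ) {y : ℝ} (hy : y ≠ 0) :
    V g x y = ((∫ s in (0:ℝ)..(x + y), g s) - ∫ s in (0:ℝ)..x, g s) / y := by
  unfold V
  have h1 := intervalIntegral.integral_comp_mul_add (a := (0:ℝ)) (b := 1) g hy x
  have h2 : (fun t => g (x + t * y)) = fun t => g (y * t + x) := by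
    funext t; congr 1; ring
  rw [h2, h1, mul_zero, zero_add, mul_one, smul_eq_mul, add_comm y x,
    intervalIntegral.integral_interval_sub_left (hc.intervalIntegrable _ _)
      (hc.intervalIntegrable _ _)]
  rw [inv_mul_eq_div]

/-- The partial derivatives of `V`. -/
noncomputable def P (g : ℝ → ℝ) (x y : ℝ) : ℝ := (g (x + y) - g x) / y

/-- The partial derivatives of `V`. -/
noncomputable def P' (g : ℝ → ℝ) (x y : ℝ) : ℝ := (g (x + y) - V g x y) / y

lemma V_hasFDerivAt (hc : Continuous g) {z : ℂ} (hz : z.im ≠ 0) :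
    HasFDerivAt (fun z : ℂ => V g z.re z.im)
      (P g z.re z.im • Complex.reCLM + P' g z.re z.im • Complex.imCLM) z := by
  have hG : ∀ x, HasDerivAt (fun x => ∫ s in (0:ℝ)..x, g s) (g x) x := fun x =>
    intervalIntegral.integral_hasDerivAt_right (hc.intervalIntegrable _ _)
      (hc.stronglyMeasurableAtFilter _ _) hc.continuousAt
  have hre : HasFDerivAt (fun z : ℂ => z.re) Complex.reCLM z := Complex.reCLM.hasFDerivAt
  have him : HasFDerivAt (fun z : ℂ => z.im) Complex.imCLM z := Complex.imCLM.hasFDerivAt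
  have hsum : HasFDerivAt (fun z : ℂ => z.re + z.im) (Complex.reCLM + Complex.imCLM) z :=
    hre.add him
  have h1 : HasFDerivAt (fun z : ℂ => ∫ s in (0:ℝ)..(z.re + z.im), g s)
      (g (z.re + z.im) • (Complex.reCLM + Complex.imCLM)) z := by
    have := (hG (z.re + z.im)).comp_hasFDerivAt z hsum
    exact this
  have h2 : HasFDerivAt (fun z : ℂ => ∫ s in (0:ℝ)..z.re, g s) (g z.re • Complex.reCLM) z := by
    have := (hG z.re).comp_hasFDerivAt z hre
    exact this
  have hinv : HasFDerivAt (fun z : ℂ => (z.im)⁻¹) ((-(z.im ^ 2)⁻¹) • Complex.imCLM) z := by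
    have := (hasDerivAt_inv hz).comp_hasFDerivAt z him
    exact this
  have h3 := (h1.sub h2).mul hinv
  refine (h3.congr_of_eventuallyEq ?_).congr_fderiv ?_
  · have h4 : ∀ᶠ w : ℂ in 𝓝 z, w.im ≠ 0 :=
      Complex.continuous_im.continuousAt.eventually_ne hz
    filter_upwards [h4] with w hw
    rw [V_eq_div hc _ hw]
    rfl
  · ext w
    have h5 := V_eq_div hc z.re hz
    have h6 : (∫ s in (0:ℝ)..(z.re + z.im), g s) - ∫ s in (0:ℝ)..z.re, g s = V g z.re z.im * z.im := by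
      rw [h5]; field_simp
    simp only [P, P', Pi.sub_apply]
    rw [h6]
    simp
    field_simp
    ring

lemma Vc_hasFDerivAt (hc : Continuous g) {z : ℂ} (hz : z.im ≠ 0) :
    HasFDerivAt (fun z : ℂ => V g z.re (-z.im))
      (P g z.re (-z.im) • Complex.reCLM - P' g z.re (-z.im) • Complex.imCLM) z := by
  have h1 : (starRingEnd ℂ z).im ≠ 0 := by simpa using hz
  have h2 := V_hasFDerivAt hc h1
  have h3 : HasFDerivAt (fun z : ℂ => starRingEnd ℂ z) (Complex.conjCLE : ℂ →L[ℝ] ℂ) z :=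
    Complex.conjCLE.hasFDerivAt
  have h4 := h2.comp z h3
  refine (h4.congr_of_eventuallyEq ?_).congr_fderiv ?_
  · exact Filter.Eventually.of_forall fun w => by simp
  · ext w
    simp
    ring

/-- The real linear map of the plane with the given matrix. -/
noncomputable def L (a b c d : ℝ) : ℂ →L[ℝ] ℂ :=
  (a • Complex.reCLM + b • Complex.imCLM).smulRight (1 : ℂ) +
    (c • Complex.reCLM + d • Complex.imCLM).smulRight Complex.I

lemma L_apply (a b c d : ℝ) (w : ℂ) :
    L a b c d w = ⟨a * w.re + b * w.im, c * w.re + d * w.im⟩ := by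
  apply Complex.ext <;> simp [L]

lemma L_norm_sq (a b c d : ℝ) : ‖L a b c d‖ ^ 2 ≤ a ^ 2 + b ^ 2 + c ^ 2 + d ^ 2 := by
  have h0 : 0 ≤ a ^ 2 + b ^ 2 + c ^ 2 + d ^ 2 := by positivity
  have h1 : ‖L a b c d‖ ≤ √(a ^ 2 + b ^ 2 + c ^ 2 + d ^ 2) := by
    refine ContinuousLinearMap.opNorm_le_bound _ (Real.sqrt_nonneg _) fun w => ?_
    apply le_of_sq_le_sq _ (by positivity)
    rw [mul_pow, Real.sq_sqrt h0, L_apply, Complex.sq_norm, Complex.sq_norm,
      Complex.normSq_apply, Complex.normSq_apply]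
    simp only
    nlinarith [sq_nonneg (a * w.im - b * w.re), sq_nonneg (c * w.im - d * w.re)]
  calc ‖L a b c d‖ ^ 2 ≤ (√(a ^ 2 + b ^ 2 + c ^ 2 + d ^ 2)) ^ 2 := by gcongr
    _ = _ := Real.sq_sqrt h0

lemma L_det (a b c d : ℝ) : LinearMap.det ((L a b c d : ℂ →L[ℝ] ℂ) : ℂ →ₗ[ℝ] ℂ) = a * d - b * c := by
  rw [← LinearMap.det_toMatrix Complex.basisOneI, Matrix.det_fin_two]
  simp [LinearMap.toMatrix_apply, L_apply]

/-- The derivative of the extension off the real line. -/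
noncomputable def DE (g : ℝ → ℝ) (z : ℂ) : ℂ →L[ℝ] ℂ :=
  L ((P g z.re z.im + P g z.re (-z.im)) / 2) ((P' g z.re z.im - P' g z.re (-z.im)) / 2)
    ((P g z.re z.im - P g z.re (-z.im)) / 2) ((P' g z.re z.im + P' g z.re (-z.im)) / 2)

lemma ext_hasFDerivAt (hc : Continuous g) {z : ℂ} (hz : z.im ≠ 0) :
    HasFDerivAt (ext g) (DE g z) z := by
  have h1 := V_hasFDerivAt hc hz
  have h2 := Vc_hasFDerivAt hc hz
  have h3 := ((h1.add h2).const_smul (1 / 2 : ℝ)).smul_const (1 : ℂ)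
  have h4 := ((h1.sub h2).const_smul (1 / 2 : ℝ)).smul_const Complex.I
  refine ((h3.add h4).congr_of_eventuallyEq ?_).congr_fderiv ?_
  · refine Filter.Eventually.of_forall fun w => ?_
    apply Complex.ext
    · simp [ext]; ring
    · simp [ext]; ring
  · ext w
    apply Complex.ext
    · simp [DE, L_apply]; ring
    · simp [DE, L_apply]; ring

/-! ### Distortion -/

lemma V_le (hc : Continuous g) (hm : StrictMono g) (x : ℝ) {t : ℝ} (ht : 0 < t) :
    V g x t ≤ (g (x + t / 2) + g (x + t)) / 2 := by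
  unfold V
  rw [← intervalIntegral.integral_add_adjacent_intervals (V_int hc x t 0 (1 / 2))
    (V_int hc x t (1 / 2) 1)]
  have h1 : ∫ s in (0:ℝ)..(1 / 2), g (x + s * t) ≤ ∫ s in (0:ℝ)..(1 / 2), g (x + t / 2) := by
    apply intervalIntegral.integral_mono_on (by norm_num) (V_int hc x t _ _) (by simp)
    intro s hs
    exact hm.monotone (by nlinarith [hs.2])
  have h2 : ∫ s in (1 / 2 : ℝ)..1, g (x + s * t) ≤ ∫ s in (1 / 2 : ℝ)..1, g (x + t) := by
    apply intervalIntegral.integral_mono_on (by norm_num) (V_int hc x t _ _) (by simp)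
    intro s hs
    exact hm.monotone (by nlinarith [hs.2])
  simp only [intervalIntegral.integral_const, smul_eq_mul] at h1 h2
  linarith

lemma le_V (hc : Continuous g) (hm : StrictMono g) (x : ℝ) {t : ℝ} (ht : 0 < t) :
    (g x + g (x + t / 2)) / 2 ≤ V g x t := by
  unfold V
  rw [← intervalIntegral.integral_add_adjacent_intervals (V_int hc x t 0 (1 / 2))
    (V_int hc x t (1 / 2) 1)]
  have h1 : ∫ s in (0:ℝ)..(1 / 2), g x ≤ ∫ s in (0:ℝ)..(1 / 2), g (x + s * t) := by
    apply intervalIntegral.integral_mono_on (by norm_num) (by simp) (V_int hc x t _ _)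
    intro s hs
    exact hm.monotone (by nlinarith [hs.1])
  have h2 : ∫ s in (1 / 2 : ℝ)..1, g (x + t / 2) ≤ ∫ s in (1 / 2 : ℝ)..1, g (x + s * t) := by
    apply intervalIntegral.integral_mono_on (by norm_num) (by simp) (V_int hc x t _ _)
    intro s hs
    exact hm.monotone (by nlinarith [hs.1])
  simp only [intervalIntegral.integral_const, smul_eq_mul] at h1 h2
  linarith

/-- The two-sided ratio condition. -/
def Ratio (g ρ : ℝ → ℝ) : Prop :=
  ∀ x t : ℝ, 0 < t → g (x + t) - g x ≤ ρ t * (g x - g (x - t)) ∧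
    g x - g (x - t) ≤ ρ t * (g (x + t) - g x)

lemma pos_right (hc : Continuous g) (hm : StrictMono g) {ρ : ℝ → ℝ} (hρ : Ratio g ρ)
    (x : ℝ) {t : ℝ} (ht : 0 < t) :
    0 < P' g x t ∧ P' g x t ≤ P g x t ∧ P g x t ≤ 2 * (1 + ρ (t / 2)) * P' g x t := by
  have ht2 : 0 < t / 2 := by positivity
  have h1 := V_le hc hm x ht
  have h2 : g x ≤ V g x t := by
    have := (V_strictMono_right hc hm x).monotone ht.le
    simpa [V_zero] using this
  have h3 : g (x + t / 2) < g (x + t) := hm (by linarith)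
  have h4 := (hρ (x + t / 2) (t / 2) ht2).2
  have e1 : x + t / 2 - t / 2 = x := by ring
  have e2 : x + t / 2 + t / 2 = x + t := by ring
  rw [e1, e2] at h4
  refine ⟨div_pos (by linarith) ht, div_le_div_of_nonneg_right (by linarith) ht.le, ?_⟩
  unfold P P'
  rw [← mul_div_assoc]
  apply div_le_div_of_nonneg_right _ ht.le
  have h5 : 0 < g (x + t / 2) - g x := sub_pos.2 (hm (by linarith))
  have hρ0 : 0 < ρ (t / 2) := by
    by_contra hcon
    push Not at hcon
    have : ρ (t / 2) * (g (x + t) - g (x + t / 2)) ≤ 0 :=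
      mul_nonpos_of_nonpos_of_nonneg hcon (by linarith)
    linarith
  have h6 : (g (x + t) - g (x + t / 2)) / 2 ≤ g (x + t) - V g x t := by linarith
  calc g (x + t) - g x = (g (x + t) - g (x + t / 2)) + (g (x + t / 2) - g x) := by ring
    _ ≤ (g (x + t) - g (x + t / 2)) + ρ (t / 2) * (g (x + t) - g (x + t / 2)) := by linarith
    _ = 2 * (1 + ρ (t / 2)) * ((g (x + t) - g (x + t / 2)) / 2) := by ring
    _ ≤ 2 * (1 + ρ (t / 2)) * (g (x + t) - V g x t) := by gcongr

lemma pos_left (hc : Continuous g) (hm : StrictMono g) {ρ : ℝ → ℝ} (hρ : Ratio g ρ)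
    (x : ℝ) {t : ℝ} (ht : 0 < t) :
    0 < P' g x (-t) ∧ P' g x (-t) ≤ P g x (-t) ∧
      P g x (-t) ≤ 2 * (1 + ρ (t / 2)) * P' g x (-t) := by
  have ht2 : 0 < t / 2 := by positivity
  have hV : V g x (-t) = V g (x - t) t := by
    have := V_reflect (g := g) (x - t) t
    rwa [sub_add_cancel] at this
  have h1 := le_V hc hm (x - t) ht
  have e0 : x - t + t / 2 = x - t / 2 := by ring
  rw [← hV, e0] at h1
  have h2 : V g x (-t) ≤ g x := by
    have := (V_strictMono_right hc hm x).monotone (neg_nonpos.2 ht.le)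
    simpa [V_zero] using this
  have h3 : g (x - t) < g (x - t / 2) := hm (by linarith)
  have h4 := (hρ (x - t / 2) (t / 2) ht2).1
  have e1 : x - t / 2 - t / 2 = x - t := by ring
  have e2 : x - t / 2 + t / 2 = x := by ring
  rw [e1, e2] at h4
  have eP' : P' g x (-t) = (V g x (-t) - g (x - t)) / t := by
    unfold P'
    rw [← sub_eq_add_neg, div_neg, ← neg_div, neg_sub]
  have eP : P g x (-t) = (g x - g (x - t)) / t := by
    unfold P
    rw [← sub_eq_add_neg, div_neg, ← neg_div, neg_sub]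
  rw [eP, eP']
  refine ⟨div_pos (by linarith) ht, div_le_div_of_nonneg_right (by linarith) ht.le, ?_⟩
  rw [← mul_div_assoc]
  apply div_le_div_of_nonneg_right _ ht.le
  have h5 : 0 < g x - g (x - t / 2) := sub_pos.2 (hm (by linarith))
  have hρ0 : 0 < ρ (t / 2) := by
    by_contra hcon
    push Not at hcon
    have : ρ (t / 2) * (g (x - t / 2) - g (x - t)) ≤ 0 :=
      mul_nonpos_of_nonpos_of_nonneg hcon (by linarith)
    linarith
  have h6 : (g (x - t / 2) - g (x - t)) / 2 ≤ V g x (-t) - g (x - t) := by linarith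
  calc g x - g (x - t) = (g (x - t / 2) - g (x - t)) + (g x - g (x - t / 2)) := by ring
    _ ≤ (g (x - t / 2) - g (x - t)) + ρ (t / 2) * (g (x - t / 2) - g (x - t)) := by linarith
    _ = 2 * (1 + ρ (t / 2)) * ((g (x - t / 2) - g (x - t)) / 2) := by ring
    _ ≤ 2 * (1 + ρ (t / 2)) * (V g x (-t) - g (x - t)) := by gcongr

lemma P_ratio {ρ : ℝ → ℝ} (hρ : Ratio g ρ) (x : ℝ) {t : ℝ} (ht : 0 < t) :
    P g x t ≤ ρ t * P g x (-t) ∧ P g x (-t) ≤ ρ t * P g x t := by
  have eP : P g x (-t) = (g x - g (x - t)) / t := by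
    unfold P
    rw [← sub_eq_add_neg, div_neg, ← neg_div, neg_sub]
  rw [eP]
  unfold P
  rw [← mul_div_assoc, ← mul_div_assoc]
  exact ⟨div_le_div_of_nonneg_right (hρ x t ht).1 ht.le,
    div_le_div_of_nonneg_right (hρ x t ht).2 ht.le⟩

/-- The algebraic inequality behind the distortion estimate. -/
lemma algebra_ineq {p q p' q' r s : ℝ} (hp' : 0 < p') (hp : p' ≤ p) (hq' : 0 < q') (hq : q' ≤ q)
    (hr : 0 ≤ r) (h1 : p ≤ r * q) (h2 : q ≤ r * p)
    (h3 : p ≤ 2 * (1 + s) * p') (h4 : q ≤ 2 * (1 + s) * q') :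
    ((p + q) / 2) ^ 2 + ((p' - q') / 2) ^ 2 + ((p - q) / 2) ^ 2 + ((p' + q') / 2) ^ 2 ≤
      4 * r * (1 + s) * (((p + q) / 2) * ((p' + q') / 2) - ((p' - q') / 2) * ((p - q) / 2)) := by
  have hp0 : 0 < p := by linarith
  have hq0 : 0 < q := by linarith
  have e1 : ((p + q) / 2) ^ 2 + ((p' - q') / 2) ^ 2 + ((p - q) / 2) ^ 2 + ((p' + q') / 2) ^ 2 =
    (p ^ 2 + q ^ 2 + p' ^ 2 + q' ^ 2) / 2 := by ring
  have e2 : ((p + q) / 2) * ((p' + q') / 2) - ((p' - q') / 2) * ((p - q) / 2) =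
    (p * q' + q * p') / 2 := by ring
  rw [e1, e2]
  have h5 : p' ^ 2 ≤ p ^ 2 := by gcongr
  have h6 : q' ^ 2 ≤ q ^ 2 := by gcongr
  have h7 : p ^ 2 ≤ r * (p * q) := by nlinarith
  have h8 : q ^ 2 ≤ r * (p * q) := by nlinarith
  have h9 : p * q ≤ 2 * (1 + s) * (p * q') := by nlinarith
  have h10 : p * q ≤ 2 * (1 + s) * (q * p') := by nlinarith
  have h11 : 2 * (p * q) ≤ 2 * (1 + s) * (p * q' + q * p') := by linarith
  have h12 : r * (2 * (p * q)) ≤ r * (2 * (1 + s) * (p * q' + q * p')) :=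
    mul_le_mul_of_nonneg_left h11 hr
  nlinarith

/-- **Distortion inequality.** -/
theorem distortion (hc : Continuous g) (hm : StrictMono g) {ρ : ℝ → ℝ} (hρ : Ratio g ρ)
    (hρ0 : ∀ t, 0 ≤ ρ t) {z : ℂ} (hz : z.im ≠ 0) :
    ‖DE g z‖ ^ 2 ≤ 4 * ρ |z.im| * (1 + ρ (|z.im| / 2)) *
      LinearMap.det ((DE g z : ℂ →L[ℝ] ℂ) : ℂ →ₗ[ℝ] ℂ) := by
  unfold DE
  refine (L_norm_sq _ _ _ _).trans ?_
  rw [L_det]
  rcases lt_or_gt_of_ne hz with h | h
  · have ht : 0 < -z.im := by linarith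
    have hl := pos_left hc hm hρ z.re ht
    have hr := pos_right hc hm hρ z.re ht
    have hpr := P_ratio hρ z.re ht
    rw [neg_neg] at hl hpr
    rw [abs_of_neg h]
    exact algebra_ineq hl.1 hl.2.1 hr.1 hr.2.1 (hρ0 _) hpr.2 hpr.1 hl.2.2 hr.2.2
  · have hl := pos_left hc hm hρ z.re h
    have hr := pos_right hc hm hρ z.re h
    have hpr := P_ratio hρ z.re h
    rw [abs_of_pos h]
    exact algebra_ineq hr.1 hr.2.1 hl.1 hl.2.1 (hρ0 _) hpr.1 hpr.2 hr.2.2 hl.2.2

lemma det_nonneg (hc : Continuous g) (hm : StrictMono g) {ρ : ℝ → ℝ} (hρ : Ratio g ρ)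
    {z : ℂ} (hz : z.im ≠ 0) :
    0 ≤ LinearMap.det ((DE g z : ℂ →L[ℝ] ℂ) : ℂ →ₗ[ℝ] ℂ) := by
  unfold DE
  rw [L_det]
  have key : ∀ p q p' q' : ℝ, 0 < p' → p' ≤ p → 0 < q' → q' ≤ q →
      0 ≤ ((p + q) / 2) * ((p' + q') / 2) - ((p' - q') / 2) * ((p - q) / 2) := by
    intro p q p' q' hp' hp hq' hq
    have e2 : ((p + q) / 2) * ((p' + q') / 2) - ((p' - q') / 2) * ((p - q) / 2) =
      (p * q' + q * p') / 2 := by ring
    rw [e2]
    have hp0 : 0 < p := by linarith
    have hq0 : 0 < q := by linarith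
    positivity
  rcases lt_or_gt_of_ne hz with h | h
  · have ht : 0 < -z.im := by linarith
    have hl := pos_left hc hm hρ z.re ht
    have hr := pos_right hc hm hρ z.re ht
    rw [neg_neg] at hl
    exact key _ _ _ _ hl.1 hl.2.1 hr.1 hr.2.1
  · have hl := pos_left hc hm hρ z.re h
    have hr := pos_right hc hm hρ z.re h
    exact key _ _ _ _ hr.1 hr.2.1 hl.1 hl.2.1

end Pool.Agent.MPfbc045
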