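import Pool.Agent.Lib_MP_fbc045_an.WeakDeriv

/-!
# Local integrability of functions of the imaginary part
-/

set_option autoImplicit false

open Filter Topology MeasureTheory

namespace Pool.Agent.MPfbc045

lemma locallyIntegrable_abs_rpow : LocallyIntegrable (fun y : ℝ => |y| ^ (-(1 / 2) : ℝ)) := by
  rw [locallyIntegrable_iff]
  intro k hk
  obtain ⟨R, hR⟩ := hk.isBounded.subset_closedBall (0 : ℝ)
  have h1 : IntervalIntegrable (fun y : ℝ => |y| ^ (-(1 / 2) : ℝ)) volume 0 (|R| + 1) := by
    refine (intervalIntegral.intervalIntegrable_rpow' (r := (-(1 / 2) : ℝ)) (by norm_num)).congr ?_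
    intro y hy
    rw [Set.uIoc_of_le (by positivity)] at hy
    simp only
    rw [abs_of_pos hy.1]
  have h2 : IntervalIntegrable (fun y : ℝ => |y| ^ (-(1 / 2) : ℝ)) volume (-(|R| + 1)) 0 := by
    have := (IntervalIntegrable.iff_comp_neg (by simp)).1 h1.symm
    simpa using this
  have h3 := h2.trans h1
  rw [intervalIntegrable_iff_integrableOn_Ioc_of_le (by have := abs_nonneg R; linarith)] at h3
  refine h3.mono_set fun y hy => ?_
  have h4 := hR hy
  rw [mem_closedBall_zero_iff, Real.norm_eq_abs] at h4
  have h5 := le_abs_self R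
  rw [abs_le] at h4
  constructor <;> linarith

/-- A locally integrable function of the imaginary part is locally integrable on the plane. -/
lemma locallyIntegrable_comp_im {u : ℝ → ℝ} (hu : LocallyIntegrable u) :
    LocallyIntegrable (fun z : ℂ => u z.im) := by
  rw [locallyIntegrable_iff]
  intro k hk
  obtain ⟨R, hR⟩ := hk.isBounded.subset_closedBall (0 : ℂ)
  have h1 : IntegrableOn u (Set.Icc (-R) R) volume := hu.integrableOn_isCompact isCompact_Icc
  have h2 : Integrable (fun p : ℝ × ℝ => u p.2)
      ((volume.restrict (Set.Icc (-R) R)).prod (volume.restrict (Set.Icc (-R) R))) :=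
    Integrable.comp_snd h1 _
  rw [Measure.prod_restrict] at h2
  have h3 : IntegrableOn (fun p : ℝ × ℝ => u p.2) (Set.Icc (-R) R ×ˢ Set.Icc (-R) R)
    (volume : Measure (ℝ × ℝ)) := h2
  have hmp := Complex.volume_preserving_equiv_real_prod
  have h4 := (hmp.integrableOn_comp_preimage Complex.measurableEquivRealProd.measurableEmbedding).2 h3
  refine IntegrableOn.mono_set h4 fun z hz => ?_
  have h5 := hR hz
  rw [mem_closedBall_zero_iff] at h5
  have h6 := (Complex.abs_re_le_norm z).trans h5
  have h7 := (Complex.abs_im_le_norm z).trans h5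
  rw [abs_le] at h6 h7
  exact ⟨⟨h6.1, h6.2⟩, ⟨h7.1, h7.2⟩⟩

end Pool.Agent.MPfbc045
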