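import Pool.Agent.Lib_MP_fbc045_an.CantorMeasure
import Pool.Agent.Lib_MP_fbc045_an.Distortion
import Pool.Agent.Lib_MP_fbc045_an.Integrability

/-!
# Assembly: a homeomorphism of locally exponentially integrable distortion
-/

set_option autoImplicit false

open Filter Topology MeasureTheory

namespace Pool.Agent.MPfbc045

lemma g_Ratio : Ratio g rho := fun x _ ht => ⟨g_ratio x ht, g_ratio' x ht⟩

/-- The homeomorphism of the plane. -/
noncomputable def fh : ℂ ≃ₜ ℂ := extHomeo g_continuous g_strictMono abs_g_sub_le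

lemma fh_apply (z : ℂ) : fh z = ext g z := rfl

lemma fh_ofReal (x : ℝ) : fh x = g x := ext_ofReal x

/-- The distortion bound. -/
noncomputable def K (z : ℂ) : ℝ := 8 * A * (1 + Real.log (1 + 2 / |z.im|))

lemma A_pos : 0 < A := by unfold A; positivity

lemma one_le_A : 1 ≤ A := by unfold A; norm_num

lemma log_nonneg_im (z : ℂ) : 0 ≤ Real.log (1 + 2 / |z.im|) := by
  apply Real.log_nonneg
  have : 0 ≤ 2 / |z.im| := by positivity
  linarith

lemma one_le_K (z : ℂ) : 1 ≤ K z := by
  unfold K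
  have h1 := log_nonneg_im z
  have h2 := one_le_A
  nlinarith

lemma rho_le_K {z : ℂ} (hz : z.im ≠ 0) : 4 * rho |z.im| * (1 + rho (|z.im| / 2)) ≤ K z := by
  have ht : 0 < |z.im| := abs_pos.2 hz
  have h1 : rho |z.im| ≤ rho (|z.im| / 2) := by
    unfold rho
    apply Real.sqrt_le_sqrt
    have := A_pos
    gcongr
    linarith
  have h2 : 1 ≤ rho (|z.im| / 2) := le_rho (by positivity) (by
    rw [one_pow]; exact one_le_A)
  have h3 := rho_sq (t := |z.im| / 2) (by positivity)
  have h4 : K z = 8 * rho (|z.im| / 2) ^ 2 := by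
    rw [h3]
    unfold K
    have : 1 / (|z.im| / 2) = 2 / |z.im| := by field_simp
    rw [this]
    ring
  rw [h4]
  have h5 := rho_nonneg |z.im|
  nlinarith

lemma distortion_ae : ∀ᵐ z : ℂ,
    ‖DE g z‖ ^ 2 ≤ K z * LinearMap.det ((DE g z : ℂ →L[ℝ] ℂ) : ℂ →ₗ[ℝ] ℂ) := by
  filter_upwards [ae_im_ne_zero] with z hz
  refine (distortion g_continuous g_strictMono g_Ratio rho_nonneg hz).trans ?_
  exact mul_le_mul_of_nonneg_right (rho_le_K hz)
    (det_nonneg g_continuous g_strictMono g_Ratio hz)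

lemma DE_ae : DE g =ᵐ[volume] fderiv ℝ (ext g) := by
  filter_upwards [ae_im_ne_zero] with z hz
  exact (ext_hasFDerivAt g_continuous hz).fderiv.symm

lemma aestronglyMeasurable_DE : AEStronglyMeasurable (DE g) volume :=
  (measurable_fderiv ℝ (ext g)).aestronglyMeasurable.congr DE_ae.symm

lemma aestronglyMeasurable_det : AEStronglyMeasurable
    (fun z => LinearMap.det ((DE g z : ℂ →L[ℝ] ℂ) : ℂ →ₗ[ℝ] ℂ)) volume :=
  (ContinuousLinearMap.continuous_det (𝕜 := ℝ) (E := ℂ)).comp_aestronglyMeasurable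
    aestronglyMeasurable_DE

lemma locallyIntegrable_det : LocallyIntegrable
    (fun z => LinearMap.det ((DE g z : ℂ →L[ℝ] ℂ) : ℂ →ₗ[ℝ] ℂ)) volume := by
  rw [locallyIntegrable_iff]
  intro k hk
  refine ⟨aestronglyMeasurable_det.restrict, ?_⟩
  rw [hasFiniteIntegral_iff_norm]
  set S : Set ℂ := k ∩ {z : ℂ | z.im ≠ 0} with hS
  have hSm : MeasurableSet S :=
    hk.measurableSet.inter (isOpen_ne_fun Complex.continuous_im continuous_const).measurableSet
  have hae : k =ᵐ[volume] S := by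
    filter_upwards [ae_im_ne_zero] with z hz
    apply propext
    exact ⟨fun h => ⟨h, hz⟩, fun h => h.1⟩
  rw [setLIntegral_congr hae]
  have h1 : ∫⁻ z in S, ENNReal.ofReal
      ‖LinearMap.det ((DE g z : ℂ →L[ℝ] ℂ) : ℂ →ₗ[ℝ] ℂ)‖ = volume (ext g '' S) := by
    have h2 := lintegral_abs_det_fderiv_eq_addHaar_image (μ := volume) (f := ext g)
      (f' := DE g) hSm (fun z hz => (ext_hasFDerivAt g_continuous hz.2).hasFDerivWithinAt)
      (ext_bijective g_continuous g_strictMono abs_g_sub_le).1.injOn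
    exact h2
  rw [h1]
  calc volume (ext g '' S) ≤ volume (ext g '' k) := measure_mono (Set.image_mono fun z hz => hz.1)
    _ < ⊤ := (hk.image (ext_continuous g_continuous)).measure_lt_top

lemma exp_K (z : ℂ) : Real.exp (1 / (16 * A) * K z) =
    Real.exp (1 / 2) * √(1 + 2 / |z.im|) := by
  have h0 : 0 < 1 + 2 / |z.im| := by positivity
  have h1 : 1 / (16 * A) * K z = 1 / 2 + Real.log (1 + 2 / |z.im|) / 2 := by
    unfold K
    have := A_pos.ne'
    field_simp
    ring
  rw [h1, Real.exp_add, Real.sqrt_eq_rpow, Real.rpow_def_of_pos h0]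
  congr 2
  ring

lemma locallyIntegrable_exp :
    LocallyIntegrable (fun z : ℂ => Real.exp (1 / (16 * A) * K z)) volume := by
  have h1 : LocallyIntegrable (fun y : ℝ => Real.exp (1 / 2) * √(1 + 2 / |y|)) := by
    have h2 : LocallyIntegrable (fun y : ℝ =>
        Real.exp (1 / 2) * (1 + 2 * |y| ^ (-(1 / 2) : ℝ))) := by
      have h3 : LocallyIntegrable (fun y : ℝ => (1:ℝ) + 2 * |y| ^ (-(1 / 2) : ℝ)) :=
        (locallyIntegrable_const 1).add (locallyIntegrable_abs_rpow.smul (2:ℝ))
      exact h3.smul (Real.exp (1 / 2))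
    refine h2.mono ?_ ?_
    · apply Measurable.aestronglyMeasurable
      fun_prop
    · have hne : ∀ᵐ y : ℝ, y ≠ 0 := by
        rw [ae_iff]; simp
      filter_upwards [hne] with y hy
      have hy0 : 0 < |y| := abs_pos.2 hy
      have hy1 : 0 < |y| ^ (-(1 / 2) : ℝ) := by positivity
      rw [Real.norm_of_nonneg (show 0 ≤ Real.exp (1 / 2) * √(1 + 2 / |y|) by positivity),
        Real.norm_of_nonneg (show 0 ≤ Real.exp (1 / 2) * (1 + 2 * |y| ^ (-(1 / 2) : ℝ)) by
          positivity)]
      gcongr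
      rw [Real.sqrt_le_left (by positivity)]
      have h4 : (|y| ^ (-(1 / 2) : ℝ)) ^ 2 = 1 / |y| := by
        rw [← Real.rpow_natCast, ← Real.rpow_mul hy0.le]
        norm_num
        rw [Real.rpow_neg_one]
      have h5 : 0 < |y| ^ (-(1 / 2) : ℝ) := by positivity
      have h6 : (1 + 2 * |y| ^ (-(1 / 2) : ℝ)) ^ 2 =
          1 + 4 * |y| ^ (-(1 / 2) : ℝ) + 4 * (1 / |y|) := by rw [← h4]; ring
      rw [h6]
      have h7 : 2 / |y| = 2 * (1 / |y|) := by ring
      rw [h7]
      have h8 : 0 < 1 / |y| := by positivity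
      linarith
  have h9 := locallyIntegrable_comp_im h1
  simp_rw [exp_K]
  exact h9

lemma locallyIntegrable_K : LocallyIntegrable K volume := by
  have h1 : LocallyIntegrable (fun z : ℂ => (16 * A) * Real.exp (1 / (16 * A) * K z)) volume :=
    locallyIntegrable_exp.smul (16 * A)
  refine h1.mono ?_ ?_
  · apply Measurable.aestronglyMeasurable
    unfold K
    fun_prop
  · refine Filter.Eventually.of_forall fun z => ?_
    have h2 := one_le_K z
    have h3 := A_pos
    rw [Real.norm_eq_abs, Real.norm_eq_abs, abs_of_nonneg (by linarith),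
      abs_of_nonneg (by positivity)]
    have h4 := Real.add_one_le_exp (1 / (16 * A) * K z)
    calc K z = 16 * A * (1 / (16 * A) * K z) := by field_simp
      _ ≤ 16 * A * Real.exp (1 / (16 * A) * K z) := by
        gcongr
        linarith

lemma locallyIntegrable_DE : LocallyIntegrable (DE g) volume := by
  have h1 := locallyIntegrable_K.add locallyIntegrable_det
  refine h1.mono aestronglyMeasurable_DE ?_
  filter_upwards [distortion_ae, ae_im_ne_zero] with z hz hz0
  have h2 := one_le_K z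
  have h3 := det_nonneg g_continuous g_strictMono g_Ratio hz0
  rw [Pi.add_apply, Real.norm_eq_abs, abs_of_nonneg (by linarith)]
  apply le_of_sq_le_sq _ (by linarith)
  nlinarith [norm_nonneg (DE g z)]

/-- The image of the segment `[0, 1]`. -/
lemma image_segment : fh '' ((fun t : ℝ => (t : ℂ)) '' Set.Icc 0 1) =
    (fun t : ℝ => (t : ℂ)) '' Set.Icc 0 1 := by
  rw [Set.image_image]
  apply Set.Subset.antisymm
  · rintro _ ⟨t, ht, rfl⟩
    refine ⟨g t, ⟨?_, ?_⟩, (fh_ofReal t).symm⟩
    · have := g_strictMono.monotone ht.1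
      rwa [g_zero] at this
    · have := g_strictMono.monotone ht.2
      rwa [g_one] at this
  · rintro _ ⟨s, hs, rfl⟩
    refine ⟨h s, ⟨?_, ?_⟩, ?_⟩
    · have := h_strictMono.monotone hs.1
      have h0 := h_int 0
      push_cast at h0
      rwa [h0] at this
    · have := h_strictMono.monotone hs.2
      have h0 := h_int 1
      push_cast at h0
      rwa [h0] at this
    · simp only [fh_ofReal, g_h]

/-- The set of positive length. -/
noncomputable def E : Set ℂ := (fun t : ℝ => (t : ℂ)) '' (h '' cantorSet)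

lemma E_subset : E ⊆ (fun t : ℝ => (t : ℂ)) '' Set.Icc 0 1 := by
  apply Set.image_mono
  rintro _ ⟨s, hs, rfl⟩
  have hs' := cantorSet_subset_unitInterval hs
  constructor
  · have := h_strictMono.monotone hs'.1
    have h0 := h_int 0
    push_cast at h0
    rwa [h0] at this
  · have := h_strictMono.monotone hs'.2
    have h0 := h_int 1
    push_cast at h0
    rwa [h0] at this

lemma hausdorff_E_pos : 0 < Measure.hausdorffMeasure 1 E := by
  unfold E
  have h1 : Isometry (fun t : ℝ => (t : ℂ)) := Complex.isometry_ofReal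
  rw [h1.hausdorffMeasure_image (Or.inl zero_le_one), hausdorffMeasure_real]
  exact volume_image_cantorSet_pos

lemma image_E : fh '' E = (fun c : ℝ => (((0:ℝ) + 1 * c : ℝ) : ℂ)) '' cantorSet := by
  unfold E
  rw [Set.image_image, Set.image_image]
  apply Set.image_congr
  intro c _
  rw [fh_ofReal, g_h, one_mul, zero_add]

theorem main :
    ∃ (f : ℂ ≃ₜ ℂ) (Df : ℂ → ℂ →L[ℝ] ℂ) (K : ℂ → ℝ) (lam : ℝ) (E : Set ℂ) (a r : ℝ),
      MeasureTheory.LocallyIntegrable Df MeasureTheory.volume ∧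
      (∀ φ : ℂ → ℝ, ContDiff ℝ 1 φ → HasCompactSupport φ → ∀ v : ℂ,
        ∫ x, (fderiv ℝ φ x v) • f x ∂MeasureTheory.volume
          = - ∫ x, φ x • Df x v ∂MeasureTheory.volume) ∧
      MeasureTheory.LocallyIntegrable
        (fun x => LinearMap.det ((Df x : ℂ →L[ℝ] ℂ) : ℂ →ₗ[ℝ] ℂ)) MeasureTheory.volume ∧
      (∀ x, 1 ≤ K x) ∧
      (∀ᵐ x ∂MeasureTheory.volume,
        ‖Df x‖ ^ 2 ≤ K x * LinearMap.det ((Df x : ℂ →L[ℝ] ℂ) : ℂ →ₗ[ℝ] ℂ)) ∧
      0 < lam ∧
      MeasureTheory.LocallyIntegrable (fun x => Real.exp (lam * K x)) MeasureTheory.volume ∧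
      f '' ((fun t : ℝ => (t : ℂ)) '' Set.Icc 0 1) = (fun t : ℝ => (t : ℂ)) '' Set.Icc 0 1 ∧
      E ⊆ (fun t : ℝ => (t : ℂ)) '' Set.Icc 0 1 ∧
      0 < MeasureTheory.Measure.hausdorffMeasure 1 E ∧
      0 < r ∧
      f '' E = (fun c : ℝ => ((a + r * c : ℝ) : ℂ)) '' cantorSet :=
  ⟨fh, DE g, K, 1 / (16 * A), E, 0, 1, locallyIntegrable_DE,
    fun _ hφ hs v => weak_deriv fh.continuous
      (fun _ hz => ext_hasFDerivAt g_continuous hz) locallyIntegrable_DE hφ hs v,
    locallyIntegrable_det, one_le_K, distortion_ae, by have := A_pos; positivity,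
    locallyIntegrable_exp, image_segment, E_subset, hausdorff_E_pos, one_pos, image_E⟩

end Pool.Agent.MPfbc045
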