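import Pool.Agent.Lib_MP_fbc045_an.Inverse

/-!
# The image of the ternary Cantor set under the cascade homeomorphism has positive length
-/

set_option autoImplicit false

open Filter Topology MeasureTheory

namespace Pool.Agent.MPfbc045

/-- The `k`-th base-9 digit. -/
noncomputable def dig (k : ℕ) (y : ℝ) : ℤ := ⌊(9:ℝ) ^ (k + 1) * y⌋ % 9

lemma dig_range (k : ℕ) (y : ℝ) : 0 ≤ dig k y ∧ dig k y < 9 := by
  unfold dig; omega

/-- Membership in the Cantor set from base-9 digits. -/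
lemma mem_preCantorSet (n : ℕ) (y : ℝ) (h0 : 0 ≤ y) (h1 : y < 1)
    (hd : ∀ k, dig k y = 0 ∨ dig k y = 2 ∨ dig k y = 6 ∨ dig k y = 8) :
    y ∈ preCantorSet (2 * n) := by
  induction n generalizing y with
  | zero => simp; exact ⟨h0, h1.le⟩
  | succ n ih =>
    set d : ℤ := ⌊(9:ℝ) * y⌋ with hdd
    have hf1 := Int.floor_le ((9:ℝ) * y)
    have hf2 := Int.lt_floor_add_one ((9:ℝ) * y)
    rw [← hdd] at hf1 hf2
    have hd0 : 0 ≤ d := by rw [hdd]; exact Int.floor_nonneg.2 (by positivity)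
    have hd9 : d < 9 := by
      rw [hdd, Int.floor_lt]; push_cast; linarith
    have hdig0 : dig 0 y = d := by
      unfold dig
      rw [zero_add, pow_one, ← hdd]
      omega
    set y' : ℝ := 9 * y - d with hy'
    have hy'mem : y' ∈ preCantorSet (2 * n) := by
      apply ih
      · linarith
      · linarith
      · intro k
        have : dig k y' = dig (k + 1) y := by
          unfold dig
          have h3 : (9:ℝ) ^ (k + 1) * y' = 9 ^ (k + 1 + 1) * y - ((9 ^ (k + 1) * d : ℤ) : ℝ) := by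
            rw [hy']; push_cast; ring
          have h4 : (9:ℤ) ^ (k + 1) * d = 9 * (9 ^ k * d) := by ring
          rw [h3, Int.floor_sub_intCast, h4]
          omega
        rw [this]
        exact hd (k + 1)
    have hy : y = (d + y') / 9 := by rw [hy']; ring
    have h2 : 2 * (n + 1) = 2 * n + 1 + 1 := by ring
    rw [h2, preCantorSet_succ, preCantorSet_succ]
    rcases hdig0 ▸ hd 0 with h3 | h3 | h3 | h3 <;> rw [h3] at hy <;> push_cast at hy
    · left
      exact ⟨y' / 3, Or.inl ⟨y', hy'mem, rfl⟩, by rw [hy]; ring⟩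
    · left
      exact ⟨(2 + y') / 3, Or.inr ⟨y', hy'mem, rfl⟩, by rw [hy]; ring⟩
    · right
      exact ⟨y' / 3, Or.inl ⟨y', hy'mem, rfl⟩, by rw [hy]; ring⟩
    · right
      exact ⟨(2 + y') / 3, Or.inr ⟨y', hy'mem, rfl⟩, by rw [hy]; ring⟩

lemma mem_cantorSet_of_digits (y : ℝ) (h0 : 0 ≤ y) (h1 : y < 1)
    (hd : ∀ k, dig k y = 0 ∨ dig k y = 2 ∨ dig k y = 6 ∨ dig k y = 8) : y ∈ cantorSet := by
  unfold cantorSet
  rw [Set.mem_iInter]
  intro n
  exact preCantorSet_antitone (by omega : n ≤ 2 * n) (mem_preCantorSet n y h0 h1 hd)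

/-- The set of points whose `k`-th digit is a gap digit. -/
def bad (k : ℕ) : Set ℝ :=
  {y | 0 ≤ y ∧ y < 1 ∧ (dig k y = 1 ∨ dig k y = 3 ∨ dig k y = 4 ∨ dig k y = 5 ∨ dig k y = 7)}

lemma Ico_subset : Set.Ico (0:ℝ) 1 ⊆ cantorSet ∪ ⋃ k, bad k := by
  intro y hy
  by_cases hc : y ∈ cantorSet
  · exact Or.inl hc
  · right
    by_contra hcon
    apply hc
    apply mem_cantorSet_of_digits y hy.1 hy.2
    intro k
    by_contra hk
    apply hcon
    rw [Set.mem_iUnion]
    refine ⟨k, hy.1, hy.2, ?_⟩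
    have := dig_range k y
    omega

lemma image_bad_subset (k : ℕ) : h '' bad k ⊆
    ⋃ q ∈ Finset.range (9 ^ k), ⋃ i ∈ ({1, 3, 4, 5, 7} : Finset ℤ),
      Set.Icc (F (k + 1) (9 * (q : ℤ) + i)) (F (k + 1) (9 * (q : ℤ) + i + 1)) := by
  rintro _ ⟨y, ⟨h0, h1, hd⟩, rfl⟩
  set p : ℤ := ⌊(9:ℝ) ^ (k + 1) * y⌋ with hp
  have hp0 : 0 ≤ p := Int.floor_nonneg.2 (by positivity)
  have hp1 : p < 9 ^ (k + 1) := by
    rw [hp, Int.floor_lt]
    push_cast
    have : (0:ℝ) < 9 ^ (k + 1) := by positivity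
    nlinarith
  have hdig : dig k y = p % 9 := rfl
  obtain ⟨q, hq⟩ := Int.eq_ofNat_of_zero_le (show 0 ≤ p / 9 by omega)
  have hq9 : q < 9 ^ k := by
    have h3 : (p / 9 : ℤ) < 9 ^ k := by
      rw [pow_succ] at hp1
      omega
    rw [hq] at h3
    exact_mod_cast h3
  simp only [Set.mem_iUnion]
  refine ⟨q, Finset.mem_range.2 hq9, p % 9, ?_, ?_⟩
  · rw [hdig] at hd
    simp only [Finset.mem_insert, Finset.mem_singleton]
    exact hd
  · have h3 : 9 * (q : ℤ) + p % 9 = p := by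
      rw [← hq]; omega
    rw [h3]
    exact ⟨le_h _ _, h_le _ _⟩

lemma sum_D (k n : ℕ) : ∑ q ∈ Finset.range n, D k (q : ℤ) = F k n - F k 0 := by
  induction n with
  | zero => simp
  | succ n ih =>
    rw [Finset.sum_range_succ, ih]
    unfold D
    push_cast
    ring

lemma volume_image_bad (k : ℕ) : volume (h '' bad k) ≤ ENNReal.ofReal (5 * eps k) := by
  refine (measure_mono (image_bad_subset k)).trans ?_
  refine (measure_biUnion_finset_le _ _).trans ?_
  have h1 : ∀ q ∈ Finset.range (9 ^ k),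
      volume (⋃ i ∈ ({1, 3, 4, 5, 7} : Finset ℤ),
        Set.Icc (F (k + 1) (9 * (q : ℤ) + i)) (F (k + 1) (9 * (q : ℤ) + i + 1))) ≤
      ENNReal.ofReal (5 * eps k * D k q) := by
    intro q _
    refine (measure_biUnion_finset_le _ _).trans ?_
    have h2 : ∀ i ∈ ({1, 3, 4, 5, 7} : Finset ℤ),
        volume (Set.Icc (F (k + 1) (9 * (q : ℤ) + i)) (F (k + 1) (9 * (q : ℤ) + i + 1))) =
          ENNReal.ofReal (eps k * D k q) := by
      intro i hi
      have hi' : i = 1 ∨ i = 3 ∨ i = 4 ∨ i = 5 ∨ i = 7 := by simpa using hi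
      rw [Real.volume_Icc]
      have h3 := D_succ k (q : ℤ) i (by omega) (by omega)
      rw [w_gap _ _ hi'] at h3
      rw [← h3]
      rfl
    rw [Finset.sum_congr rfl h2, Finset.sum_const]
    have h4 : ({1, 3, 4, 5, 7} : Finset ℤ).card = 5 := by decide
    rw [h4, nsmul_eq_mul, mul_assoc, ENNReal.ofReal_mul (by norm_num : (0:ℝ) ≤ 5)]
    norm_num
  refine (Finset.sum_le_sum h1).trans ?_
  rw [← ENNReal.ofReal_sum_of_nonneg]
  · apply ENNReal.ofReal_le_ofReal
    rw [← Finset.mul_sum, sum_D]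
    have h2 := F_periodic k 0
    rw [zero_add] at h2
    have h3 : F k ((9 ^ k : ℕ) : ℤ) = F k 0 + 1 := by
      rw [← h2]; push_cast; rfl
    rw [h3]
    linarith
  · intro q _
    exact mul_nonneg (mul_nonneg (by norm_num) (eps_pos k).le) (D_pos k q).le

lemma sum_eps (n : ℕ) : ∑ k ∈ Finset.range n, eps k = m * (1 - 1 / (n + 1)) := by
  induction n with
  | zero => simp
  | succ n ih =>
    rw [Finset.sum_range_succ, ih]
    unfold eps
    push_cast
    field_simp
    ring

lemma tsum_eps_le : ∑' k, ENNReal.ofReal (5 * eps k) ≤ ENNReal.ofReal (5 * m) := by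
  apply ENNReal.tsum_le_of_sum_range_le
  intro n
  rw [← ENNReal.ofReal_sum_of_nonneg (fun k _ => mul_nonneg (by norm_num) (eps_pos k).le)]
  apply ENNReal.ofReal_le_ofReal
  rw [← Finset.mul_sum, sum_eps]
  have hm := m_pos
  have h1 : (0:ℝ) ≤ 1 / (n + 1) := by positivity
  nlinarith

/-- The image of the Cantor set has positive length. -/
theorem volume_image_cantorSet_pos : 0 < volume (h '' cantorSet) := by
  by_contra hcon
  have h0 : volume (h '' cantorSet) = 0 := by
    simpa using hcon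
  have h1 : Set.Ico (0:ℝ) 1 ⊆ h '' cantorSet ∪ ⋃ k, h '' bad k := by
    intro x hx
    have h2 : g x ∈ Set.Ico (0:ℝ) 1 := by
      constructor
      · have := g_strictMono.monotone hx.1
        rwa [g_zero] at this
      · have := g_strictMono hx.2
        rwa [g_one] at this
    rcases Ico_subset h2 with h3 | h3
    · exact Or.inl ⟨g x, h3, h_g x⟩
    · right
      rw [Set.mem_iUnion] at h3 ⊢
      obtain ⟨k, hk⟩ := h3
      exact ⟨k, g x, hk, h_g x⟩
  have h2 : volume (Set.Ico (0:ℝ) 1) ≤ ENNReal.ofReal (5 * m) := by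
    calc volume (Set.Ico (0:ℝ) 1) ≤ volume (h '' cantorSet ∪ ⋃ k, h '' bad k) := measure_mono h1
      _ ≤ volume (h '' cantorSet) + volume (⋃ k, h '' bad k) := measure_union_le _ _
      _ = volume (⋃ k, h '' bad k) := by rw [h0, zero_add]
      _ ≤ ∑' k, volume (h '' bad k) := measure_iUnion_le _
      _ ≤ ∑' k, ENNReal.ofReal (5 * eps k) := ENNReal.tsum_le_tsum volume_image_bad
      _ ≤ ENNReal.ofReal (5 * m) := tsum_eps_le
  rw [Real.volume_Ico] at h2
  have h3 := (ENNReal.ofReal_le_ofReal_iff (by have := m_pos; positivity)).1 h2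
  unfold m at h3
  norm_num at h3

end Pool.Agent.MPfbc045
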