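import Mathlib

/-!
# A 9-adic cascade

We construct a strictly increasing homeomorphism `h` of the line, `h (y + 1) = h y + 1`, whose
increments over 9-adic intervals are products of prescribed weights.
-/

set_option autoImplicit false

open Filter Topology

namespace Pool.Agent.MPfbc045

/-- The relative mass of the two end children of every 9-adic interval. -/
noncomputable def m : ℝ := 1 / 6561

/-- The relative mass of a gap child at generation `N`. -/
noncomputable def eps (N : ℕ) : ℝ := m / ((N + 1) * (N + 2))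

lemma m_pos : 0 < m := by unfold m; norm_num

lemma eps_pos (N : ℕ) : 0 < eps N := by
  unfold eps; exact div_pos m_pos (by positivity)

lemma eps_le_m (N : ℕ) : eps N ≤ m := by
  unfold eps
  have h1 : (0:ℝ) ≤ N := Nat.cast_nonneg N
  exact div_le_self m_pos.le (by nlinarith)

lemma eps_succ_le (N : ℕ) : eps (N + 1) ≤ eps N := by
  unfold eps
  have h1 : (0:ℝ) ≤ N := Nat.cast_nonneg N
  apply div_le_div_of_nonneg_left m_pos.le (by positivity)
  push_cast
  nlinarith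

/-- Cumulative weights of the children. -/
noncomputable def W (e : ℝ) (i : ℤ) : ℝ :=
  if i = 0 then 0 else if i = 1 then m else if i = 2 then m + e else
  if i = 3 then 1 / 2 - 3 * e / 2 else if i = 4 then 1 / 2 - e / 2 else
  if i = 5 then 1 / 2 + e / 2 else if i = 6 then 1 / 2 + 3 * e / 2 else
  if i = 7 then 1 - m - e else if i = 8 then 1 - m else 1

lemma W_zero (e : ℝ) : W e 0 = 0 := by simp [W]

lemma W_nine (e : ℝ) : W e 9 = 1 := by norm_num [W]

/-- The weights of the children. -/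
noncomputable def w (e : ℝ) (i : ℤ) : ℝ := W e (i + 1) - W e i

lemma w_zero (e : ℝ) : w e 0 = m := by norm_num [w, W]

lemma w_eight (e : ℝ) : w e 8 = m := by norm_num [w, W]

lemma w_gap (e : ℝ) (i : ℤ) (hi : i = 1 ∨ i = 3 ∨ i = 4 ∨ i = 5 ∨ i = 7) : w e i = e := by
  rcases hi with rfl | rfl | rfl | rfl | rfl <;> norm_num [w, W] <;> ring

lemma le_w {e : ℝ} (he : e ≤ m) {i : ℤ} (h0 : 0 ≤ i) (h9 : i < 9) : e ≤ w e i := by
  have hm : m = 1 / 6561 := rfl
  rw [hm] at he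
  interval_cases i <;> norm_num [w, W, hm] <;> linarith

lemma w_le {e : ℝ} (he0 : 0 ≤ e) (he : e ≤ m) {i : ℤ} (h0 : 0 ≤ i) (h9 : i < 9) :
    w e i ≤ 1 / 2 := by
  have hm : m = 1 / 6561 := rfl
  rw [hm] at he
  interval_cases i <;> norm_num [w, W, hm] <;> linarith

lemma W_symm (e : ℝ) {i : ℤ} (h0 : 0 ≤ i) (h9 : i ≤ 9) : W e (9 - i) = 1 - W e i := by
  interval_cases i <;> norm_num [W] <;> ring

/-- The cumulative mass at generation `N`. -/
noncomputable def F : ℕ → ℤ → ℝ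
  | 0, p => p
  | N + 1, p => F N (p / 9) + W (eps N) (p % 9) * (F N (p / 9 + 1) - F N (p / 9))

lemma F_zero (p : ℤ) : F 0 p = p := rfl

lemma F_succ (N : ℕ) (q i : ℤ) (h0 : 0 ≤ i) (h9 : i ≤ 9) :
    F (N + 1) (9 * q + i) = F N q + W (eps N) i * (F N (q + 1) - F N q) := by
  rcases h9.lt_or_eq with h | rfl
  · have h1 : (9 * q + i) / 9 = q := by omega
    have h2 : (9 * q + i) % 9 = i := by omega
    simp only [F, h1, h2]
  · have h1 : (9 * q + 9) / 9 = q + 1 := by omega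
    have h2 : (9 * q + 9) % 9 = 0 := by omega
    simp only [F, h1, h2, W_zero, W_nine]
    ring

lemma F_succ_nine (N : ℕ) (q : ℤ) : F (N + 1) (9 * q) = F N q := by
  have := F_succ N q 0 le_rfl (by norm_num)
  rw [add_zero, W_zero] at this
  rw [this]; ring

lemma F_add_nine_pow (N k : ℕ) (q : ℤ) : F (N + k) (9 ^ k * q) = F N q := by
  induction k with
  | zero => simp
  | succ k ih =>
    rw [← add_assoc, pow_succ', mul_assoc, F_succ_nine, ih]

/-- The mass of the `p`-th interval of generation `N`. -/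
noncomputable def D (N : ℕ) (p : ℤ) : ℝ := F N (p + 1) - F N p

lemma D_zero (p : ℤ) : D 0 p = 1 := by simp [D, F_zero]

lemma D_succ (N : ℕ) (q i : ℤ) (h0 : 0 ≤ i) (h9 : i < 9) :
    D (N + 1) (9 * q + i) = w (eps N) i * D N q := by
  unfold D w
  rw [add_assoc, F_succ N q (i + 1) (by omega) (by omega), F_succ N q i h0 h9.le]
  ring

lemma exists_digit (p : ℤ) : ∃ q i : ℤ, 0 ≤ i ∧ i < 9 ∧ p = 9 * q + i :=
  ⟨p / 9, p % 9, by omega, by omega, by omega⟩

lemma D_pos (N : ℕ) (p : ℤ) : 0 < D N p := by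
  induction N generalizing p with
  | zero => rw [D_zero]; exact one_pos
  | succ N ih =>
    obtain ⟨q, i, h0, h9, rfl⟩ := exists_digit p
    rw [D_succ N q i h0 h9]
    exact mul_pos ((eps_pos N).trans_le (le_w (eps_le_m N) h0 h9)) (ih q)

lemma D_le (N : ℕ) (p : ℤ) : D N p ≤ (1 / 2) ^ N := by
  induction N generalizing p with
  | zero => rw [D_zero]; simp
  | succ N ih =>
    obtain ⟨q, i, h0, h9, rfl⟩ := exists_digit p
    rw [D_succ N q i h0 h9, pow_succ']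
    exact mul_le_mul (w_le (eps_pos N).le (eps_le_m N) h0 h9) (ih q) (D_pos N q).le (by norm_num)

lemma F_strictMono (N : ℕ) : StrictMono (F N) :=
  strictMono_int_of_lt_succ fun p => by
    have := D_pos N p
    unfold D at this
    linarith

lemma F_add_le (N : ℕ) (p : ℤ) (k : ℕ) : F N (p + k) ≤ F N p + k * (1 / 2) ^ N := by
  induction k with
  | zero => simp
  | succ k ih =>
    have h1 := D_le N (p + k)
    unfold D at h1
    push_cast
    rw [← add_assoc]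
    linarith

lemma F_periodic (N : ℕ) (p : ℤ) : F N (p + 9 ^ N) = F N p + 1 := by
  induction N generalizing p with
  | zero => simp [F_zero]
  | succ N ih =>
    obtain ⟨q, i, h0, h9, rfl⟩ := exists_digit p
    have h1 : 9 * q + i + 9 ^ (N + 1) = 9 * (q + 9 ^ N) + i := by ring
    have h2 : q + 9 ^ N + 1 = (q + 1) + 9 ^ N := by ring
    rw [h1, F_succ N _ i h0 h9.le, F_succ N _ i h0 h9.le, h2, ih, ih]
    ring

lemma F_neg (N : ℕ) (p : ℤ) : F N (-p) = -F N p := by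
  induction N generalizing p with
  | zero => simp [F_zero]
  | succ N ih =>
    obtain ⟨q, i, h0, h9, rfl⟩ := exists_digit p
    have h1 : -(9 * q + i) = 9 * (-(q + 1)) + (9 - i) := by ring
    have h2 : -(q + 1) + 1 = -q := by ring
    rw [h1, F_succ N _ (9 - i) (by omega) (by omega), F_succ N _ i h0 h9.le, h2, ih, ih,
      W_symm _ h0 h9.le]
    ring

/-! ### The limit function -/

/-- The limit homeomorphism. -/
noncomputable def h (y : ℝ) : ℝ := ⨆ N : ℕ, F N ⌊(9:ℝ) ^ N * y⌋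

lemma floor_succ_ge (N : ℕ) (y : ℝ) : 9 * ⌊(9:ℝ) ^ N * y⌋ ≤ ⌊(9:ℝ) ^ (N + 1) * y⌋ := by
  rw [Int.le_floor]
  push_cast
  have := Int.floor_le ((9:ℝ) ^ N * y)
  rw [pow_succ]
  linarith

lemma floor_succ_lt (N : ℕ) (y : ℝ) :
    ⌊(9:ℝ) ^ (N + 1) * y⌋ + 1 ≤ 9 * (⌊(9:ℝ) ^ N * y⌋ + 1) := by
  rw [Int.add_one_le_iff, Int.floor_lt]
  push_cast
  have := Int.lt_floor_add_one ((9:ℝ) ^ N * y)
  rw [pow_succ]
  linarith

lemma lower_mono (y : ℝ) : Monotone fun N : ℕ => F N ⌊(9:ℝ) ^ N * y⌋ :=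
  monotone_nat_of_le_succ fun N => by
    rw [← F_succ_nine]
    exact (F_strictMono _).monotone (floor_succ_ge N y)

lemma upper_anti (y : ℝ) : Antitone fun N : ℕ => F N (⌊(9:ℝ) ^ N * y⌋ + 1) :=
  antitone_nat_of_succ_le fun N => by
    rw [← F_succ_nine N (⌊(9:ℝ) ^ N * y⌋ + 1)]
    exact (F_strictMono _).monotone (floor_succ_lt N y)

lemma lower_le_upper (y : ℝ) (N M : ℕ) :
    F N ⌊(9:ℝ) ^ N * y⌋ ≤ F M (⌊(9:ℝ) ^ M * y⌋ + 1) := by
  calc F N ⌊(9:ℝ) ^ N * y⌋ ≤ F (max N M) ⌊(9:ℝ) ^ (max N M) * y⌋ := lower_mono y (le_max_left _ _)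
    _ ≤ F (max N M) (⌊(9:ℝ) ^ (max N M) * y⌋ + 1) := (F_strictMono _).monotone (by omega)
    _ ≤ _ := upper_anti y (le_max_right _ _)

lemma bddAbove_lower (y : ℝ) : BddAbove (Set.range fun N : ℕ => F N ⌊(9:ℝ) ^ N * y⌋) :=
  ⟨_, by rintro _ ⟨N, rfl⟩; exact lower_le_upper y N 0⟩

lemma le_h (N : ℕ) (y : ℝ) : F N ⌊(9:ℝ) ^ N * y⌋ ≤ h y :=
  le_ciSup (bddAbove_lower y) N

lemma h_le (N : ℕ) (y : ℝ) : h y ≤ F N (⌊(9:ℝ) ^ N * y⌋ + 1) :=
  ciSup_le fun M => lower_le_upper y M N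

lemma h_nadic (N : ℕ) (p : ℤ) : h (p / 9 ^ N) = F N p := by
  have h9 : (9:ℝ) ^ N ≠ 0 := by positivity
  have hN : ⌊(9:ℝ) ^ N * (p / 9 ^ N)⌋ = p := by
    rw [mul_div_cancel₀ _ h9, Int.floor_intCast]
  apply le_antisymm
  · refine ciSup_le fun M => ?_
    rcases le_total M N with hMN | hMN
    · have := lower_mono (p / 9 ^ N) hMN
      simp only at this
      rwa [hN] at this
    · obtain ⟨k, rfl⟩ := Nat.exists_eq_add_of_le hMN
      have h1 : ⌊(9:ℝ) ^ (N + k) * (p / 9 ^ N)⌋ = 9 ^ k * p := by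
        have : (9:ℝ) ^ (N + k) * (p / 9 ^ N) = ((9 ^ k * p : ℤ) : ℝ) := by
          push_cast
          rw [pow_add]
          field_simp
        rw [this, Int.floor_intCast]
      rw [h1, F_add_nine_pow]
  · have := le_h N (p / 9 ^ N)
    rwa [hN] at this

lemma h_int (p : ℤ) : h p = p := by
  have := h_nadic 0 p
  simpa [F_zero] using this

lemma h_strictMono : StrictMono h := by
  intro y z hyz
  obtain ⟨N, hN⟩ : ∃ N : ℕ, 2 / (z - y) < 9 ^ N := pow_unbounded_of_one_lt _ (by norm_num)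
  have hzy : 0 < z - y := sub_pos.2 hyz
  rw [div_lt_iff₀ hzy] at hN
  have h1 : ⌊(9:ℝ) ^ N * y⌋ + 2 ≤ ⌊(9:ℝ) ^ N * z⌋ := by
    rw [Int.le_floor]
    push_cast
    have := Int.floor_le ((9:ℝ) ^ N * y)
    linarith
  calc h y ≤ F N (⌊(9:ℝ) ^ N * y⌋ + 1) := h_le N y
    _ < F N ⌊(9:ℝ) ^ N * z⌋ := F_strictMono N (by omega)
    _ ≤ h z := le_h N z

/-- Modulus of continuity: two points at distance at most `9^{-N}` have images at distance at
most `3 · 2^{-N}`. -/
lemma h_sub_le (N : ℕ) {y z : ℝ} (hyz : z ≤ y + 1 / 9 ^ N) : h z ≤ h y + 3 * (1 / 2) ^ N := by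
  have h1 : ⌊(9:ℝ) ^ N * z⌋ ≤ ⌊(9:ℝ) ^ N * y⌋ + 2 := by
    have : ⌊(9:ℝ) ^ N * z⌋ < ⌊(9:ℝ) ^ N * y⌋ + 3 := by
      rw [Int.floor_lt]
      push_cast
      have := Int.lt_floor_add_one ((9:ℝ) ^ N * y)
      have h2 : (9:ℝ) ^ N * z ≤ 9 ^ N * y + 1 := by
        calc (9:ℝ) ^ N * z ≤ 9 ^ N * (y + 1 / 9 ^ N) := by gcongr
          _ = 9 ^ N * y + 1 := by field_simp
      linarith
    omega
  calc h z ≤ F N (⌊(9:ℝ) ^ N * z⌋ + 1) := h_le N z
    _ ≤ F N (⌊(9:ℝ) ^ N * y⌋ + (3 : ℕ)) := (F_strictMono N).monotone (by push_cast; omega)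
    _ ≤ F N ⌊(9:ℝ) ^ N * y⌋ + (3 : ℕ) * (1 / 2) ^ N := F_add_le N _ 3
    _ ≤ h y + 3 * (1 / 2) ^ N := by
      push_cast
      linarith [le_h N y]

lemma h_continuous : Continuous h := by
  rw [Metric.continuous_iff]
  intro y e he
  obtain ⟨N, hN⟩ : ∃ N : ℕ, (1 / 2 : ℝ) ^ N < e / 3 :=
    exists_pow_lt_of_lt_one (by positivity) (by norm_num)
  refine ⟨1 / 9 ^ N, by positivity, fun z hz => ?_⟩
  rw [Real.dist_eq, abs_lt] at hz
  have h1 := h_sub_le N (y := y) (z := z) (by linarith [hz.2])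
  have h2 := h_sub_le N (y := z) (z := y) (by linarith [hz.1])
  rw [Real.dist_eq, abs_lt]
  constructor <;> linarith

lemma h_add_one (y : ℝ) : h (y + 1) = h y + 1 := by
  unfold h
  rw [ciSup_add (bddAbove_lower y)]
  congr 1
  funext N
  have : (9:ℝ) ^ N * (y + 1) = 9 ^ N * y + ((9 ^ N : ℤ) : ℝ) := by push_cast; ring
  rw [this, Int.floor_add_intCast, F_periodic]

lemma h_unique {y v : ℝ} (h1 : ∀ N : ℕ, F N (⌊(9:ℝ) ^ N * y⌋ - 1) ≤ v)
    (h2 : ∀ N : ℕ, v ≤ F N (⌊(9:ℝ) ^ N * y⌋ + 1)) : v = h y := by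
  have key : ∀ N : ℕ, |v - h y| ≤ 2 * (1 / 2) ^ N := by
    intro N
    have h3 := F_add_le N (⌊(9:ℝ) ^ N * y⌋ - 1) 2
    have h4 : ⌊(9:ℝ) ^ N * y⌋ - 1 + (2 : ℕ) = ⌊(9:ℝ) ^ N * y⌋ + 1 := by push_cast; ring
    rw [h4] at h3
    push_cast at h3
    have h5 := h_le N y
    have h6 := le_h N y
    have h7 : F N (⌊(9:ℝ) ^ N * y⌋ - 1) ≤ F N ⌊(9:ℝ) ^ N * y⌋ :=
      (F_strictMono N).monotone (by omega)
    rw [abs_le]
    constructor
    · linarith [h1 N]
    · linarith [h2 N]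
  have h3 : Tendsto (fun N : ℕ => 2 * (1 / 2 : ℝ) ^ N) atTop (𝓝 0) := by
    have := (tendsto_pow_atTop_nhds_zero_of_lt_one (r := (1 / 2 : ℝ)) (by norm_num)
      (by norm_num)).const_mul 2
    simpa using this
  have h4 : |v - h y| ≤ 0 := ge_of_tendsto' h3 key
  exact sub_eq_zero.1 (abs_nonpos_iff.1 h4)

lemma h_neg (y : ℝ) : h (-y) = -h y := by
  have : -h (-y) = h y := by
    apply h_unique
    · intro N
      have h1 := h_le N (-y)
      have h2 : F N (-(⌊(9:ℝ) ^ N * (-y)⌋ + 1)) ≤ -h (-y) := by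
        rw [F_neg]; linarith
      refine le_trans ((F_strictMono N).monotone ?_) h2
      have h3 : ⌊(9:ℝ) ^ N * (-y)⌋ ≤ -⌊(9:ℝ) ^ N * y⌋ := by
        have : ⌊(9:ℝ) ^ N * (-y)⌋ < -⌊(9:ℝ) ^ N * y⌋ + 1 := by
          rw [Int.floor_lt]
          push_cast
          have := Int.floor_le ((9:ℝ) ^ N * y)
          linarith
        omega
      omega
    · intro N
      have h1 := le_h N (-y)
      have h2 : -h (-y) ≤ F N (-⌊(9:ℝ) ^ N * (-y)⌋) := by
        rw [F_neg]; linarith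
      refine h2.trans ((F_strictMono N).monotone ?_)
      have h3 : -⌊(9:ℝ) ^ N * y⌋ - 1 ≤ ⌊(9:ℝ) ^ N * (-y)⌋ := by
        rw [Int.le_floor]
        push_cast
        have := Int.lt_floor_add_one ((9:ℝ) ^ N * y)
        linarith
      omega
  linarith

lemma abs_h_sub_le (y : ℝ) : |h y - y| ≤ 1 := by
  have h1 := le_h 0 y
  have h2 := h_le 0 y
  simp only [pow_zero, one_mul, F_zero] at h1 h2
  push_cast at h2
  have h3 := Int.floor_le y
  have h4 := Int.lt_floor_add_one y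
  rw [abs_le]
  constructor <;> linarith

lemma h_surjective : Function.Surjective h := by
  apply h_continuous.surjective
  · refine tendsto_atTop_mono (fun y => ?_) (tendsto_atTop_add_const_right _ (-1 : ℝ) tendsto_id)
    have := (abs_le.1 (abs_h_sub_le y)).1
    simp only [id]
    linarith
  · refine tendsto_atBot_mono (fun y => ?_) (tendsto_atBot_add_const_right _ (1 : ℝ) tendsto_id)
    have := (abs_le.1 (abs_h_sub_le y)).2
    simp only [id]
    linarith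

end Pool.Agent.MPfbc045
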