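import Mathlib

/-!
# The Beurling–Ahlfors extension of a homeomorphism of the line: topology
-/

set_option autoImplicit false

open Filter Topology MeasureTheory

namespace Pool.Agent.MPfbc045

/-- The average of `g` over the segment between `x` and `x + y`. -/
noncomputable def V (g : ℝ → ℝ) (x y : ℝ) : ℝ := ∫ t in (0:ℝ)..1, g (x + t * y)

section

variable {g : ℝ → ℝ}

lemma V_continuous (hc : Continuous g) : Continuous fun p : ℝ × ℝ => V g p.1 p.2 := by
  unfold V
  refine intervalIntegral.continuous_parametric_intervalIntegral_of_continuous' ?_ 0 1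
  have : Function.uncurry (fun (p : ℝ × ℝ) (t : ℝ) => g (p.1 + t * p.2)) =
      fun q : (ℝ × ℝ) × ℝ => g (q.1.1 + q.2 * q.1.2) := rfl
  rw [this]
  fun_prop

lemma V_int (hc : Continuous g) (x y : ℝ) (a b : ℝ) :
    IntervalIntegrable (fun t => g (x + t * y)) volume a b :=
  Continuous.intervalIntegrable (by fun_prop) a b

lemma V_zero (x : ℝ) : V g x 0 = g x := by simp [V]

lemma V_strictMono_left (hc : Continuous g) (hm : StrictMono g) (y : ℝ) :
    StrictMono fun x => V g x y := by
  intro x x' hx
  unfold V
  exact intervalIntegral.integral_lt_integral_of_continuousOn_of_le_of_exists_lt one_pos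
    (by fun_prop) (by fun_prop) (fun t _ => (hm (by linarith)).le)
    ⟨1, ⟨zero_le_one, le_rfl⟩, hm (by linarith)⟩

lemma V_strictMono_right (hc : Continuous g) (hm : StrictMono g) (x : ℝ) :
    StrictMono fun y => V g x y := by
  intro y y' hy
  unfold V
  exact intervalIntegral.integral_lt_integral_of_continuousOn_of_le_of_exists_lt one_pos
    (by fun_prop) (by fun_prop) (fun t ht => hm.monotone (by nlinarith [ht.1]))
    ⟨1, ⟨zero_le_one, le_rfl⟩, hm (by linarith)⟩

lemma V_reflect (x y : ℝ) : V g (x + y) (-y) = V g x y := by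
  unfold V
  have h1 := intervalIntegral.integral_comp_sub_left (a := 0) (b := 1)
    (fun t => g (x + t * y)) (1:ℝ)
  simp only [sub_self, sub_zero] at h1
  rw [← h1]
  congr 1
  funext t
  congr 1
  ring

lemma abs_V_sub_le (hc : Continuous g) (hb : ∀ x, |g x - x| ≤ 1) (x y : ℝ) :
    |V g x y - (x + y / 2)| ≤ 1 := by
  unfold V
  have h1 : x + y / 2 = ∫ t in (0:ℝ)..1, (x + t * y) := by
    rw [intervalIntegral.integral_add (by simp) (Continuous.intervalIntegrable (by fun_prop) _ _),
      intervalIntegral.integral_mul_const]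
    simp
    ring
  rw [h1, ← intervalIntegral.integral_sub (V_int hc x y 0 1)
    (Continuous.intervalIntegrable (by fun_prop) _ _)]
  have h2 := intervalIntegral.norm_integral_le_of_norm_le_const (a := (0:ℝ)) (b := 1)
    (f := fun t => g (x + t * y) - (x + t * y)) (C := 1) (fun t _ => hb _)
  simpa using h2

/-- Existence of a solution of `V g x y = v`, `V g x (-y) = u`. -/
lemma exists_solution (hc : Continuous g) (hm : StrictMono g) (hb : ∀ x, |g x - x| ≤ 1)
    (u v : ℝ) : ∃ x y : ℝ, V g x y = v ∧ V g x (-y) = u := by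
  -- solve in `x`
  have hsolve : ∀ y : ℝ, ∃ x, V g x (-y) = u := by
    intro y
    have h1 : Continuous fun x => V g x (-y) :=
      (V_continuous hc).comp (continuous_id.prodMk continuous_const)
    have h2 : Function.Surjective fun x => V g x (-y) := by
      apply h1.surjective
      · refine tendsto_atTop_mono (fun x => ?_)
          (tendsto_atTop_add_const_right _ (-y / 2 - 1) tendsto_id)
        have := (abs_le.1 (abs_V_sub_le hc hb x (-y))).1
        simp only [id]
        linarith
      · refine tendsto_atBot_mono (fun x => ?_)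
          (tendsto_atBot_add_const_right _ (-y / 2 + 1) tendsto_id)
        have := (abs_le.1 (abs_V_sub_le hc hb x (-y))).2
        simp only [id]
        linarith
    exact h2 u
  choose X hX using hsolve
  have hmono : Monotone X := by
    intro y y' hy
    by_contra hlt
    push Not at hlt
    have h1 := V_strictMono_left hc hm (-y) hlt
    have h2 := (V_strictMono_right hc hm (X y')).monotone (neg_le_neg hy)
    simp only at h1 h2
    rw [hX] at h1 h2
    linarith
  have hanti : Antitone fun y => X y - y := by
    intro y y' hy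
    by_contra hlt
    simp only [not_le] at hlt
    have e1 : V g (X y - y) y = u := by
      rw [← V_reflect, sub_add_cancel]; exact hX y
    have e2 : V g (X y' - y') y' = u := by
      rw [← V_reflect, sub_add_cancel]; exact hX y'
    have h1 := V_strictMono_left hc hm y' hlt
    have h2 := (V_strictMono_right hc hm (X y - y)).monotone hy
    simp only at h1 h2
    linarith
  have hlip : LipschitzWith 1 X := by
    apply LipschitzWith.of_dist_le_mul
    intro y y'
    rw [NNReal.coe_one, one_mul]
    wlog hyy : y ≤ y' generalizing y y'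
    · rw [dist_comm, dist_comm y]
      exact this y' y (le_of_not_ge hyy)
    have h1 := hmono hyy
    have h2 := hanti hyy
    simp only at h2
    rw [dist_comm, dist_comm y, Real.dist_eq, Real.dist_eq, abs_of_nonneg (by linarith),
      abs_of_nonneg (by linarith)]
    linarith
  have hψ : Continuous fun y => V g (X y) y :=
    (V_continuous hc).comp (hlip.continuous.prodMk continuous_id)
  have hsurj : Function.Surjective fun y => V g (X y) y := by
    apply hψ.surjective
    · refine tendsto_atTop_mono' _ ?_ ((tendsto_atTop_add_const_right atTop (X 0 - 1)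
        (tendsto_id.atTop_div_const (by norm_num : (0:ℝ) < 2))))
      filter_upwards [eventually_ge_atTop 0] with y hy
      have h1 := (abs_le.1 (abs_V_sub_le hc hb (X y) y)).1
      have h2 := hmono hy
      simp only [id]
      linarith
    · refine tendsto_atBot_mono' _ ?_ ((tendsto_atBot_add_const_right atBot (X 0 + 1)
        (tendsto_id.atBot_div_const (by norm_num : (0:ℝ) < 2))))
      filter_upwards [eventually_le_atBot 0] with y hy
      have h1 := (abs_le.1 (abs_V_sub_le hc hb (X y) y)).2
      have h2 := hmono hy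
      simp only [id]
      linarith
  obtain ⟨y, hy⟩ := hsurj v
  exact ⟨X y, y, hy, hX y⟩

lemma unique_solution (hc : Continuous g) (hm : StrictMono g) {x y x' y' : ℝ}
    (h1 : V g x y = V g x' y') (h2 : V g x (-y) = V g x' (-y')) : x = x' ∧ y = y' := by
  wlog hyy : y ≤ y' generalizing x y x' y'
  · have := this h1.symm h2.symm (le_of_not_ge hyy)
    exact ⟨this.1.symm, this.2.symm⟩
  have hxx : x ≤ x' := by
    by_contra hlt
    push Not at hlt
    have h3 := V_strictMono_left hc hm (-y) hlt
    have h4 := (V_strictMono_right hc hm x').monotone (neg_le_neg hyy)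
    simp only at h3 h4
    linarith
  have h3 : V g x y ≤ V g x' y := (V_strictMono_left hc hm y).monotone hxx
  have h4 : V g x' y ≤ V g x' y' := (V_strictMono_right hc hm x').monotone hyy
  have h5 : V g x y = V g x' y := le_antisymm h3 (by rw [h1]; exact h4)
  have h6 : V g x' y = V g x' y' := by rw [← h5, h1]
  exact ⟨(V_strictMono_left hc hm y).injective h5, (V_strictMono_right hc hm x').injective h6⟩

/-- The Beurling–Ahlfors extension. -/
noncomputable def ext (g : ℝ → ℝ) (z : ℂ) : ℂ :=
  ⟨(V g z.re z.im + V g z.re (-z.im)) / 2, (V g z.re z.im - V g z.re (-z.im)) / 2⟩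

lemma ext_continuous (hc : Continuous g) : Continuous (ext g) := by
  have h1 : Continuous fun z : ℂ => V g z.re z.im :=
    (V_continuous hc).comp (Complex.continuous_re.prodMk Complex.continuous_im)
  have h2 : Continuous fun z : ℂ => V g z.re (-z.im) :=
    (V_continuous hc).comp (Complex.continuous_re.prodMk Complex.continuous_im.neg)
  have h3 : ext g = fun z => (((V g z.re z.im + V g z.re (-z.im)) / 2 : ℝ) : ℂ) +
      (((V g z.re z.im - V g z.re (-z.im)) / 2 : ℝ) : ℂ) * Complex.I := by
    funext z
    apply Complex.ext <;> simp [ext]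
  rw [h3]
  exact (Complex.continuous_ofReal.comp ((h1.add h2).div_const 2)).add
    ((Complex.continuous_ofReal.comp ((h1.sub h2).div_const 2)).mul continuous_const)

lemma ext_bijective (hc : Continuous g) (hm : StrictMono g) (hb : ∀ x, |g x - x| ≤ 1) :
    Function.Bijective (ext g) := by
  constructor
  · intro z w hzw
    have h1 := congrArg Complex.re hzw
    have h2 := congrArg Complex.im hzw
    simp only [ext] at h1 h2
    have h3 : V g z.re z.im = V g w.re w.im := by linarith
    have h4 : V g z.re (-z.im) = V g w.re (-w.im) := by linarith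
    obtain ⟨h5, h6⟩ := unique_solution hc hm h3 h4
    exact Complex.ext h5 h6
  · intro w
    obtain ⟨x, y, h1, h2⟩ := exists_solution hc hm hb (w.re - w.im) (w.re + w.im)
    refine ⟨⟨x, y⟩, ?_⟩
    apply Complex.ext
    · simp only [ext, h1, h2]; ring
    · simp only [ext, h1, h2]; ring

lemma norm_le_ext (hc : Continuous g) (hb : ∀ x, |g x - x| ≤ 1) (z : ℂ) :
    ‖z‖ / 2 - 3 ≤ ‖ext g z‖ := by
  have h1 := abs_V_sub_le hc hb z.re z.im
  have h2 := abs_V_sub_le hc hb z.re (-z.im)
  have h3 : ‖ext g z - ⟨z.re, z.im / 2⟩‖ ≤ 2 := by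
    refine (Complex.norm_le_abs_re_add_abs_im _).trans ?_
    simp only [Complex.sub_re, Complex.sub_im, ext]
    rw [abs_le] at h1 h2
    have h4 : |(V g z.re z.im + V g z.re (-z.im)) / 2 - z.re| ≤ 1 := by
      rw [abs_le]; constructor <;> linarith
    have h5 : |(V g z.re z.im - V g z.re (-z.im)) / 2 - z.im / 2| ≤ 1 := by
      rw [abs_le]; constructor <;> linarith
    linarith
  have h4 : ‖z‖ / 2 ≤ ‖(⟨z.re, z.im / 2⟩ : ℂ)‖ := by
    have h5 : ‖z‖ ^ 2 = z.re ^ 2 + z.im ^ 2 := by
      rw [Complex.sq_norm, Complex.normSq_apply]; ring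
    have h6 : ‖(⟨z.re, z.im / 2⟩ : ℂ)‖ ^ 2 = z.re ^ 2 + (z.im / 2) ^ 2 := by
      rw [Complex.sq_norm, Complex.normSq_apply]; ring
    apply le_of_sq_le_sq _ (norm_nonneg _)
    rw [h6, div_pow, h5]
    nlinarith [sq_nonneg z.re]
  have h5 : ‖(⟨z.re, z.im / 2⟩ : ℂ)‖ ≤ ‖ext g z‖ + ‖ext g z - ⟨z.re, z.im / 2⟩‖ := by
    have h6 : (⟨z.re, z.im / 2⟩ : ℂ) = ext g z - (ext g z - ⟨z.re, z.im / 2⟩) := by ring
    calc ‖(⟨z.re, z.im / 2⟩ : ℂ)‖ = ‖ext g z - (ext g z - ⟨z.re, z.im / 2⟩)‖ := by rw [← h6]
      _ ≤ _ := norm_sub_le _ _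
  linarith

lemma ext_isClosedMap (hc : Continuous g) (hb : ∀ x, |g x - x| ≤ 1) : IsClosedMap (ext g) := by
  apply IsProperMap.isClosedMap
  rw [isProperMap_iff_tendsto_cocompact]
  refine ⟨ext_continuous hc, ?_⟩
  rw [← Metric.cobounded_eq_cocompact, ← tendsto_norm_atTop_iff_cobounded]
  refine tendsto_atTop_mono (norm_le_ext hc hb) ?_
  exact tendsto_atTop_add_const_right _ (-3)
    (tendsto_norm_cobounded_atTop.atTop_div_const (by norm_num))

/-- The extension as a homeomorphism of the plane. -/
noncomputable def extHomeo (hc : Continuous g) (hm : StrictMono g) (hb : ∀ x, |g x - x| ≤ 1) :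
    ℂ ≃ₜ ℂ :=
  (Equiv.ofBijective (ext g) (ext_bijective hc hm hb)).toHomeomorphOfContinuousClosed
    (ext_continuous hc) (ext_isClosedMap hc hb)

lemma extHomeo_apply (hc : Continuous g) (hm : StrictMono g) (hb : ∀ x, |g x - x| ≤ 1) (z : ℂ) :
    extHomeo hc hm hb z = ext g z := rfl

lemma ext_ofReal (x : ℝ) : ext g x = g x := by
  apply Complex.ext <;> simp [ext, V_zero]

end

end Pool.Agent.MPfbc045
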