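import Pool.Agent.Lib_MP_fbc045_an.Ratio

/-!
# The inverse homeomorphism and its quasisymmetry ratio
-/

set_option autoImplicit false

open Filter Topology

namespace Pool.Agent.MPfbc045

/-- The cascade homeomorphism as an order isomorphism. -/
noncomputable def hIso : ℝ ≃o ℝ := StrictMono.orderIsoOfSurjective h h_strictMono h_surjective

/-- The inverse homeomorphism. -/
noncomputable def g (x : ℝ) : ℝ := hIso.symm x

lemma h_g (x : ℝ) : h (g x) = x := hIso.apply_symm_apply x

lemma g_h (y : ℝ) : g (h y) = y := hIso.symm_apply_apply y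

lemma g_strictMono : StrictMono g := hIso.symm.strictMono

lemma g_continuous : Continuous g := hIso.symm.continuous

lemma g_surjective : Function.Surjective g := hIso.symm.surjective

lemma g_add_one (x : ℝ) : g (x + 1) = g x + 1 := by
  apply h_strictMono.injective
  rw [h_g, h_add_one, h_g]

lemma g_neg (x : ℝ) : g (-x) = -g x := by
  apply h_strictMono.injective
  rw [h_g, h_neg, h_g]

lemma g_int (p : ℤ) : g p = p := by
  apply h_strictMono.injective
  rw [h_g, h_int]

lemma g_zero : g 0 = 0 := by simpa using g_int 0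

lemma g_one : g 1 = 1 := by simpa using g_int 1

lemma abs_g_sub_le (x : ℝ) : |g x - x| ≤ 1 := by
  have := abs_h_sub_le (g x)
  rwa [h_g, abs_sub_comm] at this

lemma g_add_nat (x : ℝ) (n : ℕ) : g (x + n) = g x + n := by
  induction n with
  | zero => simp
  | succ n ih =>
    push_cast
    rw [← add_assoc, g_add_one, ih]
    ring

/-- The constant in the ratio bound. -/
noncomputable def A : ℝ := 8 * 81 ^ 31

/-- The bound for the ratio at scale `t`. -/
noncomputable def rho (t : ℝ) : ℝ := √(A * (1 + Real.log (1 + 1 / t)))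

lemma log_nonneg' {t : ℝ} (ht : 0 < t) : 0 ≤ Real.log (1 + 1 / t) :=
  Real.log_nonneg (by have : 0 < 1 / t := by positivity
                      linarith)

lemma le_rho {t : ℝ} (ht : 0 < t) {c : ℝ} (hc : c ^ 2 ≤ A) : c ≤ rho t := by
  apply Real.le_sqrt_of_sq_le
  have := log_nonneg' ht
  have hA : 0 < A := by unfold A; positivity
  nlinarith

lemma rho_nonneg (t : ℝ) : 0 ≤ rho t := Real.sqrt_nonneg _

lemma rho_sq {t : ℝ} (ht : 0 < t) : rho t ^ 2 = A * (1 + Real.log (1 + 1 / t)) := by
  have := log_nonneg' ht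
  have hA : 0 < A := by unfold A; positivity
  exact Real.sq_sqrt (by positivity)

theorem g_ratio (x : ℝ) {t : ℝ} (ht : 0 < t) :
    g (x + t) - g x ≤ rho t * (g x - g (x - t)) := by
  set l := g x - g (x - t) with hl
  have hl0 : 0 < l := sub_pos.2 (g_strictMono (by linarith))
  rcases le_or_gt t 1 with ht1 | ht1
  · have hle1 : g (x + t) - g x ≤ 1 := by
      have h1 : g (x + t) ≤ g (x + 1) := g_strictMono.monotone (by linarith)
      rw [g_add_one] at h1
      linarith
    rcases lt_or_ge (1 / 9 ^ 28) l with hlb | hlb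
    · -- large scale
      have h1 : (9:ℝ) ^ 28 ≤ rho t := le_rho ht (by unfold A; norm_num)
      calc g (x + t) - g x ≤ 1 := hle1
        _ ≤ 9 ^ 28 * l := by
          rw [div_lt_iff₀ (by positivity)] at hlb
          linarith
        _ ≤ rho t * l := by gcongr
    · -- small scale
      obtain ⟨N, hN1, hN2⟩ := exists_nat_pow_near_of_lt_one (x := l * 9 ^ 28) (y := (1 / 9 : ℝ))
        (by positivity) (by rwa [le_div_iff₀ (by positivity)] at hlb) (by norm_num) (by norm_num)
      have hlN : l ≤ 1 / 9 ^ (N + 28) := by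
        rw [pow_add, le_div_iff₀ (by positivity)]
        have h9 : (0:ℝ) < 9 ^ N := by positivity
        rw [one_div_pow, le_div_iff₀ h9] at hN2
        linarith
      have hyl : g x - l = g (x - t) := by rw [hl]; ring
      have h1 := h_left_le_right N (y := g x) (l := l) hlN
      rw [hyl, h_g, h_g] at h1
      -- bound for `t`
      have h2 : t ≤ (1 / 2) ^ N := by
        have h3 := h_sub_le (N + 28) (y := g x - l) (z := g x) (by linarith)
        rw [hyl, h_g, h_g, pow_add] at h3
        have h4 : (0:ℝ) < (1 / 2) ^ N := by positivity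
        have h5 : (3:ℝ) * ((1 / 2) ^ N * (1 / 2) ^ 28) ≤ (1 / 2) ^ N := by
          have h6 : (3:ℝ) * (1 / 2) ^ 28 ≤ 1 := by norm_num
          nlinarith
        linarith
      have hNlog : (N : ℝ) ≤ 2 * Real.log (1 + 1 / t) := by
        have h3 : (2:ℝ) ^ N ≤ 1 + 1 / t := by
          have h4 : (2:ℝ) ^ N ≤ 1 / t := by
            rw [le_div_iff₀ ht]
            calc (2:ℝ) ^ N * t ≤ 2 ^ N * (1 / 2) ^ N := by gcongr
              _ = 1 := by rw [← mul_pow]; norm_num
          linarith
        have h4 := Real.log_le_log (by positivity) h3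
        rw [Real.log_pow] at h4
        have h5 : (1 / 2 : ℝ) ≤ Real.log 2 := by linarith [Real.log_two_gt_d9]
        have h6 : (0:ℝ) ≤ N := Nat.cast_nonneg N
        nlinarith
      -- bound for the factor
      have hrho : (1 + 9 ^ jj N) * 9 ^ 29 ≤ rho t := by
        apply Real.le_sqrt_of_sq_le
        have h3 := nine_pow_jj_sq N
        have h4 : (1:ℝ) ≤ 9 ^ jj N := one_le_pow₀ (by norm_num)
        have h5 : ((1:ℝ) + 9 ^ jj N) ^ 2 ≤ 4 * (6561 * (N + 2)) := by nlinarith
        have h6 : ((9:ℝ) ^ 29) ^ 2 = 81 ^ 29 := by rw [← pow_mul]; norm_num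
        calc (((1:ℝ) + 9 ^ jj N) * 9 ^ 29) ^ 2 = ((1:ℝ) + 9 ^ jj N) ^ 2 * (81:ℝ) ^ 29 := by
              rw [mul_pow, h6]
          _ ≤ (4:ℝ) * (6561 * ((N:ℝ) + 2)) * (81:ℝ) ^ 29 := by gcongr
          _ ≤ (4:ℝ) * (6561 * (2 * Real.log (1 + 1 / t) + 2)) * (81:ℝ) ^ 29 := by gcongr
          _ = A * (1 + Real.log (1 + 1 / t)) := by unfold A; ring
      have hle : g (x + t) - g x ≤ (1 + 9 ^ jj N) / 9 ^ N := by
        have h3 : x + t ≤ h (g x + (1 + 9 ^ jj N) / 9 ^ N) := by linarith
        have h4 := g_strictMono.monotone h3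
        rw [g_h] at h4
        linarith
      calc g (x + t) - g x ≤ (1 + 9 ^ jj N) / 9 ^ N := hle
        _ = (1 + 9 ^ jj N) * (1 / 9) ^ (N + 1) * 9 := by
          rw [pow_succ, one_div_pow]; field_simp
        _ ≤ (1 + 9 ^ jj N) * (l * 9 ^ 28) * 9 := by gcongr
        _ = (1 + 9 ^ jj N) * 9 ^ 29 * l := by ring
        _ ≤ rho t * l := by gcongr
  · -- scales larger than one
    have h1 : (4:ℝ) ≤ rho t := le_rho ht (by unfold A; norm_num)
    have h2 : g (x + t) - g x ≤ 2 * t := by
      have h3 : g (x + t) ≤ g (x + ⌈t⌉₊) :=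
        g_strictMono.monotone (by have := Nat.le_ceil t; linarith)
      rw [g_add_nat] at h3
      have h4 := Nat.ceil_lt_add_one ht.le
      linarith
    have h3 : t / 2 ≤ l := by
      have h4 : g (x - t) ≤ g (x - ⌊t⌋₊) :=
        g_strictMono.monotone (by have := Nat.floor_le ht.le; linarith)
      have h5 := g_add_nat (x - ⌊t⌋₊) ⌊t⌋₊
      rw [sub_add_cancel] at h5
      have h6 := Nat.lt_floor_add_one t
      have h7 : (1:ℝ) ≤ ⌊t⌋₊ := by exact_mod_cast (Nat.one_le_floor_iff t).2 ht1.le
      linarith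
    calc g (x + t) - g x ≤ 2 * t := h2
      _ ≤ 4 * l := by linarith
      _ ≤ rho t * l := by gcongr

theorem g_ratio' (x : ℝ) {t : ℝ} (ht : 0 < t) :
    g x - g (x - t) ≤ rho t * (g (x + t) - g x) := by
  have h1 := g_ratio (-x) ht
  have h2 : -x + t = -(x - t) := by ring
  have h3 : -x - t = -(x + t) := by ring
  rw [h2, h3, g_neg, g_neg, g_neg] at h1
  have h4 : -g (x - t) - -g x = g x - g (x - t) := by ring
  have h5 : -g x - -g (x + t) = g (x + t) - g x := by ring
  rwa [h4, h5] at h1

end Pool.Agent.MPfbc045
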