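import Pool.Agent.Lib_MP_fbc045_an.Cascade

/-!
# Quasisymmetry ratio of the inverse of the cascade homeomorphism
-/

set_option autoImplicit false

open Filter Topology

namespace Pool.Agent.MPfbc045

lemma m_le_one : m ≤ 1 := by unfold m; norm_num

lemma D_adj (N : ℕ) (p : ℤ) : eps N * D N p ≤ D N (p + 1) ∧ eps N * D N (p + 1) ≤ D N p := by
  induction N generalizing p with
  | zero =>
    rw [D_zero, D_zero, mul_one]
    exact ⟨(eps_le_m 0).trans m_le_one, (eps_le_m 0).trans m_le_one⟩
  | succ N ih =>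
    obtain ⟨q, i, h0, h9, rfl⟩ := exists_digit p
    have hq := D_pos N q
    rcases (by omega : i < 8 ∨ i = 8) with h8 | rfl
    · have h1 : 9 * q + i + 1 = 9 * q + (i + 1) := by ring
      rw [h1, D_succ N q i h0 h9, D_succ N q (i + 1) (by omega) (by omega)]
      have ha := le_w (eps_le_m N) h0 h9
      have hb := le_w (eps_le_m N) (i := i + 1) (by omega) (by omega)
      have hc := w_le (eps_pos N).le (eps_le_m N) h0 h9
      have hd := w_le (eps_pos N).le (eps_le_m N) (i := i + 1) (by omega) (by omega)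
      have he := eps_succ_le N
      have hf := eps_pos (N + 1)
      constructor
      · rw [← mul_assoc]
        apply mul_le_mul_of_nonneg_right _ hq.le
        nlinarith
      · rw [← mul_assoc]
        apply mul_le_mul_of_nonneg_right _ hq.le
        nlinarith
    · have h1 : 9 * q + 8 + 1 = 9 * (q + 1) + 0 := by ring
      rw [h1, D_succ N q 8 (by norm_num) (by norm_num), D_succ N (q + 1) 0 le_rfl (by norm_num),
        w_zero, w_eight]
      have he := eps_succ_le N
      have hq1 := D_pos N (q + 1)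
      have hm := m_pos
      obtain ⟨h2, h3⟩ := ih q
      constructor
      · calc eps (N + 1) * (m * D N q) ≤ eps N * (m * D N q) := by gcongr
          _ = m * (eps N * D N q) := by ring
          _ ≤ m * D N (q + 1) := by gcongr
      · calc eps (N + 1) * (m * D N (q + 1)) ≤ eps N * (m * D N (q + 1)) := by gcongr
          _ = m * (eps N * D N (q + 1)) := by ring
          _ ≤ m * D N q := by gcongr

/-- The mass of an interval is controlled by the mass to its right at a larger scale. -/
lemma D_le_right (N j : ℕ) (p : ℤ) :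
    D N p ≤ max (1 / m) (m ^ j / eps N) * (F N (p + 1 + 9 ^ j) - F N (p + 1)) := by
  have hm := m_pos
  have hm1 : 1 ≤ 1 / m := by rw [le_div_iff₀ hm, one_mul]; exact m_le_one
  induction N generalizing j p with
  | zero =>
    rw [D_zero, F_zero, F_zero]
    push_cast
    have h1 : (1:ℝ) ≤ 9 ^ j := one_le_pow₀ (by norm_num)
    have h2 : (1:ℝ) ≤ max (1 / m) (m ^ j / eps 0) := hm1.trans (le_max_left _ _)
    nlinarith
  | succ N ih =>
    cases j with
    | zero =>
      have h1 := (D_adj (N + 1) p).1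
      have h2 := eps_pos (N + 1)
      have h3 : F (N + 1) (p + 1 + 9 ^ 0) - F (N + 1) (p + 1) = D (N + 1) (p + 1) := by
        simp [D]
      rw [h3]
      calc D (N + 1) p ≤ (1 / eps (N + 1)) * D (N + 1) (p + 1) := by
            rw [one_div, inv_mul_eq_div, le_div_iff₀ h2]; linarith
        _ ≤ max (1 / m) (m ^ 0 / eps (N + 1)) * D (N + 1) (p + 1) := by
            have := (D_pos (N + 1) (p + 1)).le
            gcongr
            rw [pow_zero]
            exact le_max_right _ _
    | succ j =>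
      obtain ⟨q, i, h0, h9, rfl⟩ := exists_digit p
      have hq := D_pos N q
      have hmax0 : 0 ≤ max (1 / m) (m ^ (j + 1) / eps (N + 1)) :=
        le_trans (by positivity) (le_max_left _ _)
      rcases (by omega : i < 8 ∨ i = 8) with h8 | rfl
      · have h1 : D (N + 1) (9 * q + i) ≤ D N q := by
          rw [D_succ N q i h0 h9]
          have := w_le (eps_pos N).le (eps_le_m N) h0 h9
          nlinarith
        have h2 : D (N + 1) (9 * q + 8) = m * D N q := by
          rw [D_succ N q 8 (by norm_num) (by norm_num), w_eight]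
        have h3 : D (N + 1) (9 * q + 8) ≤
            F (N + 1) (9 * q + i + 1 + 9 ^ (j + 1)) - F (N + 1) (9 * q + i + 1) := by
          unfold D
          have h4 : (9:ℤ) ≤ 9 ^ (j + 1) := by
            calc (9:ℤ) = 9 ^ 1 := by norm_num
              _ ≤ 9 ^ (j + 1) := pow_le_pow_right₀ (by norm_num) (by omega)
          have h5 := (F_strictMono (N + 1)).monotone
            (show 9 * q + 8 + 1 ≤ 9 * q + i + 1 + 9 ^ (j + 1) by omega)
          have h6 := (F_strictMono (N + 1)).monotone (show 9 * q + i + 1 ≤ 9 * q + 8 by omega)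
          linarith
        calc D (N + 1) (9 * q + i) ≤ D N q := h1
          _ = (1 / m) * D (N + 1) (9 * q + 8) := by rw [h2]; field_simp
          _ ≤ max (1 / m) (m ^ (j + 1) / eps (N + 1)) *
              (F (N + 1) (9 * q + i + 1 + 9 ^ (j + 1)) - F (N + 1) (9 * q + i + 1)) := by
            gcongr
            · exact (D_pos _ _).le
            · exact le_max_left _ _
      · have h1 : 9 * q + 8 + 1 + 9 ^ (j + 1) = 9 * (q + 1 + 9 ^ j) := by ring
        have h2 : 9 * q + 8 + 1 = 9 * (q + 1) := by ring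
        rw [h1, h2, F_succ_nine, F_succ_nine, D_succ N q 8 (by norm_num) (by norm_num), w_eight]
        have h3 : m * max (1 / m) (m ^ j / eps N) ≤ max (1 / m) (m ^ (j + 1) / eps (N + 1)) := by
          rw [mul_max_of_nonneg _ _ hm.le]
          apply max_le_max
          · rw [mul_one_div_cancel hm.ne']; exact hm1
          · rw [← mul_div_assoc, ← pow_succ']
            exact div_le_div_of_nonneg_left (by positivity) (eps_pos _) (eps_succ_le N)
        have h4 : 0 ≤ F N (q + 1 + 9 ^ j) - F N (q + 1) :=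
          sub_nonneg.2 ((F_strictMono N).monotone (by
            have : (0:ℤ) ≤ 9 ^ j := by positivity
            omega))
        calc m * D N q ≤ m * (max (1 / m) (m ^ j / eps N) * (F N (q + 1 + 9 ^ j) - F N (q + 1))) := by
              gcongr; exact ih j q
          _ = m * max (1 / m) (m ^ j / eps N) * (F N (q + 1 + 9 ^ j) - F N (q + 1)) := by ring
          _ ≤ _ := by gcongr

/-- The scale shift needed at generation `N`. -/
def jj (N : ℕ) : ℕ := Nat.clog 81 (N + 2) + 1

lemma m_pow_jj_le (N : ℕ) : m ^ jj N ≤ eps N := by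
  unfold jj eps
  have h1 : N + 2 ≤ 81 ^ Nat.clog 81 (N + 2) := Nat.le_pow_clog (by norm_num) _
  have h2 : (N + 2 : ℝ) ≤ 81 ^ Nat.clog 81 (N + 2) := by exact_mod_cast h1
  have h3 : m = (1 / 81) ^ 2 := by unfold m; norm_num
  have hm := m_pos
  rw [pow_succ', div_eq_mul_one_div]
  gcongr
  rw [h3, ← pow_mul, mul_comm 2, pow_mul, one_div_pow, ← one_div_pow, one_div_pow, one_div_pow]
  apply one_div_le_one_div_of_le (by positivity)
  have h4 : (0:ℝ) ≤ N := Nat.cast_nonneg N
  calc ((N:ℝ) + 1) * (N + 2) ≤ (N + 2) * (N + 2) := by gcongr; norm_num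
    _ = (N + 2) ^ 2 := by ring
    _ ≤ (81 ^ Nat.clog 81 (N + 2)) ^ 2 := by gcongr

lemma nine_pow_jj_sq (N : ℕ) : ((9:ℝ) ^ jj N) ^ 2 ≤ 6561 * (N + 2) := by
  unfold jj
  have h1 : 81 ^ (Nat.clog 81 (N + 2)).pred < N + 2 :=
    Nat.pow_pred_clog_lt_self (by norm_num) (by omega)
  have h0 : 0 < Nat.clog 81 (N + 2) := Nat.clog_pos (by norm_num) (by omega)
  have h2 : (81:ℝ) ^ (Nat.clog 81 (N + 2)).pred ≤ N + 2 := by exact_mod_cast h1.le
  rw [← pow_mul, mul_comm, pow_mul]
  have h3 : Nat.clog 81 (N + 2) + 1 = (Nat.clog 81 (N + 2)).pred + 2 := by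
    have := Nat.succ_pred_eq_of_pos h0
    omega
  have h4 : ((9:ℝ) ^ 2) = 81 := by norm_num
  rw [h3, pow_add, h4]
  have h5 := mul_le_mul_of_nonneg_right h2 (by positivity : (0:ℝ) ≤ 81 ^ 2)
  linarith

/-- The mass immediately to the right, at the larger scale. -/
noncomputable def R (N : ℕ) (p : ℤ) : ℝ := F N (p + 1 + 9 ^ jj N) - F N (p + 1)

lemma D_le_R (N : ℕ) (p : ℤ) : D N p ≤ 1 / m * R N p := by
  have h1 := D_le_right N (jj N) p
  have h2 : m ^ jj N / eps N ≤ 1 / m := by
    calc m ^ jj N / eps N ≤ 1 := by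
          rw [div_le_one (eps_pos N)]; exact m_pow_jj_le N
      _ ≤ 1 / m := by rw [le_div_iff₀ m_pos, one_mul]; exact m_le_one
  rwa [max_eq_left h2] at h1

lemma D_pred_le_R (N : ℕ) (p : ℤ) : D N (p - 1) ≤ 2 / m ^ 2 * R N p := by
  have h1 := D_le_R N (p - 1)
  have h2 := D_le_R N p
  have hm := m_pos
  have h3 : R N (p - 1) ≤ R N p + D N p := by
    unfold R D
    have h4 := (F_strictMono N).monotone (show p - 1 + 1 + 9 ^ jj N ≤ p + 1 + 9 ^ jj N by omega)
    have h5 : p - 1 + 1 = p := by ring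
    rw [h5] at h4 ⊢
    linarith
  have hR : 0 ≤ R N p := by
    have := (D_pos N p).le.trans h2
    by_contra hcon
    push Not at hcon
    have : 1 / m * R N p < 0 := mul_neg_of_pos_of_neg (by positivity) hcon
    linarith
  have h6 : 1 / m ≤ 1 / m ^ 2 := by
    apply one_div_le_one_div_of_le (by positivity)
    nlinarith [m_le_one]
  calc D N (p - 1) ≤ 1 / m * R N (p - 1) := h1
    _ ≤ 1 / m * (R N p + D N p) := by gcongr
    _ ≤ 1 / m * (R N p + 1 / m * R N p) := by gcongr
    _ = 1 / m * R N p + 1 / m ^ 2 * R N p := by field_simp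
    _ ≤ 1 / m ^ 2 * R N p + 1 / m ^ 2 * R N p := by gcongr
    _ = 2 / m ^ 2 * R N p := by ring

lemma R_nonneg (N : ℕ) (p : ℤ) : 0 ≤ R N p := by
  unfold R
  exact sub_nonneg.2 ((F_strictMono N).monotone (by
    have : (0:ℤ) ≤ 9 ^ jj N := by positivity
    omega))

lemma D_desc (N s : ℕ) (p : ℤ) : D (N + s) p ≤ (1 / 2) ^ s * D N (p / 9 ^ s) := by
  induction s generalizing p with
  | zero => simp
  | succ s ih =>
    obtain ⟨q, i, h0, h9, rfl⟩ := exists_digit p
    rw [← add_assoc, D_succ (N + s) q i h0 h9]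
    have h1 : (9 * q + i) / 9 ^ (s + 1) = q / 9 ^ s := by
      rw [pow_succ', ← Int.ediv_ediv_of_nonneg (by norm_num)]
      congr 1
      omega
    rw [h1, pow_succ', mul_assoc]
    have h2 := w_le (eps_pos (N + s)).le (eps_le_m (N + s)) h0 h9
    have h3 := (D_pos (N + s) q).le
    calc w (eps (N + s)) i * D (N + s) q ≤ 1 / 2 * D (N + s) q := by gcongr
      _ ≤ 1 / 2 * ((1 / 2) ^ s * D N (q / 9 ^ s)) := by gcongr; exact ih q

/-- The main comparison: the mass of a short interval to the left of `y` is at most the mass of a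
longer interval to the right of `y`. -/
lemma h_left_le_right (N : ℕ) {y l : ℝ} (hl : l ≤ 1 / 9 ^ (N + 28)) :
    h y - h (y - l) ≤ h (y + (1 + 9 ^ jj N) / 9 ^ N) - h y := by
  set p' : ℤ := ⌊(9:ℝ) ^ (N + 28) * y⌋ with hp'
  set p : ℤ := ⌊(9:ℝ) ^ N * y⌋ with hp
  have hm := m_pos
  have h9 : (0:ℝ) < 9 ^ (N + 28) := by positivity
  have h9' : (0:ℝ) < 9 ^ N := by positivity
  have hpp : p' / 9 ^ 28 = p := by
    rw [hp', hp]
    have h1 : (9:ℝ) ^ N * y = (9 ^ (N + 28) * y) / ((9 ^ 28 : ℕ) : ℝ) := by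
      rw [pow_add, eq_div_iff (by positivity)]; push_cast; ring
    rw [h1, Int.floor_div_natCast]
    norm_num
  -- upper bound for the left mass
  have h1 : h y ≤ F (N + 28) (p' + 1) := h_le _ _
  have h2 : F (N + 28) (p' - 1) ≤ h (y - l) := by
    rw [← h_nadic]
    apply h_strictMono.monotone
    rw [div_le_iff₀ h9]
    have h3 := Int.floor_le ((9:ℝ) ^ (N + 28) * y)
    rw [← hp'] at h3
    have h4 : l * 9 ^ (N + 28) ≤ 1 := by rwa [le_div_iff₀ h9] at hl
    push_cast
    linarith
  have h3 : h y - h (y - l) ≤ D (N + 28) p' + D (N + 28) (p' - 1) := by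
    unfold D
    rw [sub_add_cancel]
    linarith
  have h4 : D (N + 28) p' ≤ (1 / 2) ^ 28 * D N p := by
    have := D_desc N 28 p'
    rwa [hpp] at this
  have h5 : D (N + 28) (p' - 1) ≤ (1 / 2) ^ 28 * (D N p + D N (p - 1)) := by
    have h6 := D_desc N 28 (p' - 1)
    have h7 : (p' - 1) / 9 ^ 28 = p ∨ (p' - 1) / 9 ^ 28 = p - 1 := by omega
    refine h6.trans ?_
    have h8 := (D_pos N p).le
    have h10 := (D_pos N (p - 1)).le
    rcases h7 with h7 | h7 <;> rw [h7] <;> gcongr <;> linarith
  have h6 := D_le_R N p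
  have h7 := D_pred_le_R N p
  have hR := R_nonneg N p
  have h8 : h y - h (y - l) ≤ R N p := by
    have hm1 : 1 / m = 6561 := by unfold m; norm_num
    have hm2 : 2 / m ^ 2 = 2 * 6561 ^ 2 := by unfold m; norm_num
    rw [hm1] at h6
    rw [hm2] at h7
    norm_num at h4 h5 h7
    linarith
  refine h8.trans ?_
  unfold R
  rw [← h_nadic, ← h_nadic]
  have h10 : h (((p + 1 + 9 ^ jj N : ℤ) : ℝ) / 9 ^ N) ≤ h (y + (1 + 9 ^ jj N) / 9 ^ N) := by
    apply h_strictMono.monotone
    rw [div_le_iff₀ h9', add_mul, div_mul_cancel₀ _ h9'.ne']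
    have := Int.floor_le ((9:ℝ) ^ N * y)
    rw [← hp] at this
    push_cast
    linarith
  have h11 : h y ≤ h (((p + 1 : ℤ) : ℝ) / 9 ^ N) := by
    apply h_strictMono.monotone
    rw [le_div_iff₀ h9']
    have := (Int.lt_floor_add_one ((9:ℝ) ^ N * y)).le
    rw [← hp] at this
    push_cast
    linarith
  linarith

end Pool.Agent.MPfbc045
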