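import Mathlib

/-!
# Weak derivatives of continuous maps of the plane that are differentiable off the real line
-/

set_option autoImplicit false

open Filter Topology MeasureTheory

namespace Pool.Agent.MPfbc045

lemma volume_real_line : volume {z : ℂ | z.im = 0} = 0 := by
  have h1 : {z : ℂ | z.im = 0} = (LinearMap.ker Complex.imLm : Submodule ℝ ℂ) := by
    ext z; simp
  rw [h1]
  apply Measure.addHaar_submodule
  intro h
  have h2 : Complex.I ∈ (LinearMap.ker Complex.imLm : Submodule ℝ ℂ) := by rw [h]; trivial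
  simp at h2

lemma ae_im_ne_zero : ∀ᵐ z : ℂ, z.im ≠ 0 := by
  rw [ae_iff]
  simp only [not_not]
  exact volume_real_line

lemma line_integral_zero {Φ : ℂ → ℂ} (hc : Continuous Φ) (hs : HasCompactSupport Φ)
    (hd : ∀ z : ℂ, z.im ≠ 0 → DifferentiableAt ℝ Φ z) (c v : ℂ) (hv : ‖v‖ = 1)
    (hcount : {s : ℝ | (c + s • v).im = 0}.Countable)
    (hint : Integrable (fun s : ℝ => fderiv ℝ Φ (c + s • v) v)) :
    ∫ s : ℝ, fderiv ℝ Φ (c + s • v) v = 0 := by
  obtain ⟨R, hR⟩ := hs.isBounded.subset_closedBall (0 : ℂ)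
  set S : ℝ := |R| + ‖c‖ + 1 with hS
  have hS0 : 0 < S := by positivity
  have hout : ∀ s : ℝ, S ≤ |s| → c + s • v ∉ tsupport Φ := by
    intro s hs' hmem
    have h1 := hR hmem
    rw [mem_closedBall_zero_iff] at h1
    have h2 : ‖s • v‖ ≤ ‖c + s • v‖ + ‖c‖ := by
      have h3 : s • v = (c + s • v) - c := by ring
      calc ‖s • v‖ = ‖(c + s • v) - c‖ := by rw [← h3]
        _ ≤ _ := norm_sub_le _ _
    rw [norm_smul, hv, mul_one, Real.norm_eq_abs] at h2
    have := le_abs_self R
    linarith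
  have hsupp : Function.support (fun s : ℝ => fderiv ℝ Φ (c + s • v) v) ⊆ Set.Ioc (-S) S := by
    intro s hs'
    rw [Function.mem_support] at hs'
    have h1 : |s| < S := by
      by_contra hcon
      push Not at hcon
      apply hs'
      have h2 : fderiv ℝ Φ (c + s • v) = 0 := by
        by_contra h3
        exact hout s hcon (support_fderiv_subset ℝ h3)
      rw [h2]
      rfl
    rw [abs_lt] at h1
    exact ⟨h1.1, h1.2.le⟩
  rw [← intervalIntegral.integral_eq_integral_of_support_subset hsupp]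
  have hline : Continuous fun s : ℝ => c + s • v := by fun_prop
  rw [integral_eq_of_hasDerivAt_off_countable (fun s : ℝ => Φ (c + s • v))
    (fun s : ℝ => fderiv ℝ Φ (c + s • v) v) hcount (hc.comp hline).continuousOn ?_
    hint.intervalIntegrable]
  · have h1 : Φ (c + S • v) = 0 := by
      by_contra h2
      exact hout S (le_abs_self S) (subset_tsupport _ h2)
    have h2 : Φ (c + (-S) • v) = 0 := by
      by_contra h2
      exact hout (-S) (by rw [abs_neg]; exact le_abs_self S) (subset_tsupport _ h2)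
    rw [h1, h2, sub_zero]
  · intro s hs'
    have h1 := (hd (c + s • v) hs'.2).hasFDerivAt
    have h2 : HasDerivAt (fun s : ℝ => c + s • v) v s := by
      simpa using ((hasDerivAt_id s).smul_const v).const_add c
    exact h1.comp_hasDerivAt s h2

lemma integral_fderiv_one {Φ : ℂ → ℂ} (hc : Continuous Φ) (hs : HasCompactSupport Φ)
    (hd : ∀ z : ℂ, z.im ≠ 0 → DifferentiableAt ℝ Φ z)
    (hi : Integrable (fun z => fderiv ℝ Φ z (1 : ℂ))) : ∫ z, fderiv ℝ Φ z (1 : ℂ) = 0 := by
  have hmp := Complex.volume_preserving_equiv_real_prod.symm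
  rw [← hmp.integral_comp' (fun z => fderiv ℝ Φ z (1 : ℂ))]
  have hi' : Integrable (fun p : ℝ × ℝ => fderiv ℝ Φ (Complex.measurableEquivRealProd.symm p)
      (1 : ℂ)) (volume.prod volume) := by
    have := hmp.integrable_comp_of_integrable hi
    exact this
  change ∫ p : ℝ × ℝ, fderiv ℝ Φ (Complex.measurableEquivRealProd.symm p) (1 : ℂ)
    ∂(volume.prod volume) = 0
  rw [integral_prod_symm _ hi']
  apply integral_eq_zero_of_ae
  have hne : ∀ᵐ y : ℝ, y ≠ 0 := by
    rw [ae_iff]; simp
  filter_upwards [hi'.prod_left_ae, hne] with y hy hy0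
  have hpt : ∀ x : ℝ, Complex.measurableEquivRealProd.symm (x, y) = (⟨0, y⟩ : ℂ) + x • (1 : ℂ) := by
    intro x
    apply Complex.ext <;> simp [Complex.measurableEquivRealProd]
  simp only [hpt] at hy ⊢
  apply line_integral_zero hc hs hd _ _ (by simp) _ hy
  have : {s : ℝ | ((⟨0, y⟩ : ℂ) + s • (1 : ℂ)).im = 0} = ∅ := by
    ext s; simp [hy0]
  rw [this]
  exact Set.countable_empty

lemma integral_fderiv_I {Φ : ℂ → ℂ} (hc : Continuous Φ) (hs : HasCompactSupport Φ)
    (hd : ∀ z : ℂ, z.im ≠ 0 → DifferentiableAt ℝ Φ z)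
    (hi : Integrable (fun z => fderiv ℝ Φ z Complex.I)) : ∫ z, fderiv ℝ Φ z Complex.I = 0 := by
  have hmp := Complex.volume_preserving_equiv_real_prod.symm
  rw [← hmp.integral_comp' (fun z => fderiv ℝ Φ z Complex.I)]
  have hi' : Integrable (fun p : ℝ × ℝ => fderiv ℝ Φ (Complex.measurableEquivRealProd.symm p)
      Complex.I) (volume.prod volume) := by
    have := hmp.integrable_comp_of_integrable hi
    exact this
  change ∫ p : ℝ × ℝ, fderiv ℝ Φ (Complex.measurableEquivRealProd.symm p) Complex.I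
    ∂(volume.prod volume) = 0
  rw [integral_prod _ hi']
  apply integral_eq_zero_of_ae
  filter_upwards [hi'.prod_right_ae] with x hx
  have hpt : ∀ y : ℝ, Complex.measurableEquivRealProd.symm (x, y) = (x : ℂ) + y • Complex.I := by
    intro y
    apply Complex.ext <;> simp [Complex.measurableEquivRealProd]
  simp only [hpt] at hx ⊢
  apply line_integral_zero hc hs hd _ _ (by simp) _ hx
  have : {s : ℝ | ((x : ℂ) + s • Complex.I).im = 0} = {0} := by
    ext s; simp
  rw [this]
  exact Set.countable_singleton 0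

lemma integral_fderiv_zero {Φ : ℂ → ℂ} (hc : Continuous Φ) (hs : HasCompactSupport Φ)
    (hd : ∀ z : ℂ, z.im ≠ 0 → DifferentiableAt ℝ Φ z)
    (hi : ∀ v : ℂ, Integrable (fun z => fderiv ℝ Φ z v)) (v : ℂ) :
    ∫ z, fderiv ℝ Φ z v = 0 := by
  have h1 : ∀ z, fderiv ℝ Φ z v = v.re • fderiv ℝ Φ z 1 + v.im • fderiv ℝ Φ z Complex.I := by
    intro z
    rw [← map_smul, ← map_smul, ← map_add]
    congr 1
    apply Complex.ext <;> simp
  simp_rw [h1]
  have h2 : Integrable (fun z => v.re • fderiv ℝ Φ z 1) := (hi 1).smul v.re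
  have h3 : Integrable (fun z => v.im • fderiv ℝ Φ z Complex.I) := (hi Complex.I).smul v.im
  rw [integral_add h2 h3, integral_smul, integral_smul,
    integral_fderiv_one hc hs hd (hi 1), integral_fderiv_I hc hs hd (hi Complex.I)]
  simp

/-- Integration by parts. -/
theorem weak_deriv {f : ℂ → ℂ} {Df : ℂ → ℂ →L[ℝ] ℂ} (hf : Continuous f)
    (hd : ∀ z : ℂ, z.im ≠ 0 → HasFDerivAt f (Df z) z) (hloc : LocallyIntegrable Df volume)
    {φ : ℂ → ℝ} (hφ : ContDiff ℝ 1 φ) (hs : HasCompactSupport φ) (v : ℂ) :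
    ∫ x, (fderiv ℝ φ x v) • f x = - ∫ x, φ x • Df x v := by
  set Φ : ℂ → ℂ := fun z => φ z • f z with hΦ
  have hΦc : Continuous Φ := hφ.continuous.smul hf
  have hΦs : HasCompactSupport Φ := hs.smul_right
  have hφd : ∀ z, HasFDerivAt φ (fderiv ℝ φ z) z := fun z =>
    (hφ.differentiable (by norm_num) z).hasFDerivAt
  have hΦd : ∀ z : ℂ, z.im ≠ 0 →
      HasFDerivAt Φ (φ z • Df z + (fderiv ℝ φ z).smulRight (f z)) z := fun z hz =>
    (hφd z).smul (hd z hz)
  have hfd : ∀ w : ℂ, (fun z => fderiv ℝ Φ z w) =ᵐ[volume]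
      fun z => φ z • Df z w + (fderiv ℝ φ z w) • f z := by
    intro w
    filter_upwards [ae_im_ne_zero] with z hz
    rw [(hΦd z hz).fderiv]
    rfl
  have hi1 : ∀ w : ℂ, Integrable (fun z => φ z • Df z w) := by
    intro w
    have h1 := hloc.integrable_smul_left_of_hasCompactSupport hφ.continuous hs
    exact h1.apply_continuousLinearMap w
  have hi2 : ∀ w : ℂ, Integrable (fun z => (fderiv ℝ φ z w) • f z) := by
    intro w
    have h1 : Continuous fun z => (fderiv ℝ φ z w) • f z :=
      ((hφ.continuous_fderiv (by norm_num)).clm_apply continuous_const).smul hf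
    apply h1.integrable_of_hasCompactSupport
    have h2 : HasCompactSupport ((fun z => fderiv ℝ φ z w) • f) :=
      (hs.fderiv_apply (𝕜 := ℝ) w).smul_right
    exact h2
  have hi : ∀ w : ℂ, Integrable (fun z => fderiv ℝ Φ z w) := fun w =>
    ((hi1 w).add (hi2 w)).congr (hfd w).symm
  have h0 := integral_fderiv_zero hΦc hΦs (fun z hz => (hΦd z hz).differentiableAt) hi v
  rw [integral_congr_ae (hfd v), integral_add (hi1 v) (hi2 v)] at h0
  rw [eq_neg_iff_add_eq_zero, add_comm]
  exact h0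

end Pool.Agent.MPfbc045
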